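import Pool.Agent.MP_fd3eaf_lc.ZD

/-!
Basic facts about `L_ξ(a)`; regular cardinals of the universe; codes.
-/

set_option autoImplicit false

namespace Pool.Agent.MP_fd3eaf_lc.Up

open Pool.Agent.Lib.Forcing ZFSet Cardinal Set

variable {a : ZFSet.{0}}

theorem lha_zero : Lh a 0 = insert a a := by
  rw [Lh, Ordinal.limitRecOn_zero]

theorem lha_succ (ξ : On) : Lh a (ξ + 1) = DefP (Lh a ξ) := by
  rw [Lh, Ordinal.limitRecOn_add_one]
  rfl

theorem lha_limit {l : On} (hl : Order.IsSuccLimit l) {x : ZFSet.{0}} :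
    x ∈ Lh a l ↔ ∃ ξ < l, x ∈ Lh a ξ := by
  rw [Lh, Ordinal.limitRecOn_limit _ _ _ _ hl, ZFSet.mem_sUnion]
  constructor
  · rintro ⟨z, hz, hx⟩
    obtain ⟨ζ, rfl⟩ := ZFSet.mem_range.1 hz
    exact ⟨ζ.1, ζ.2, hx⟩
  · rintro ⟨ξ, h1, h2⟩
    exact ⟨_, ZFSet.mem_range.2 ⟨⟨ξ, h1⟩, rfl⟩, h2⟩

theorem lha_sub {y : ZFSet.{0}} (hy : y.IsTransitive) : y ⊆ DefP y := by
  intro t ht
  refine ZFSet.mem_sep.2 ⟨ZFSet.mem_powerset.2 (hy t ht), .mem 0 1, fun _ => t, fun _ => ht,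
    fun s => ?_⟩
  exact ⟨fun hs => ⟨hy t ht hs, hs⟩, fun hs => hs.2⟩

theorem lha_tr {y : ZFSet.{0}} (hy : y.IsTransitive) : (DefP y).IsTransitive :=
  fun _ hz _ hs => lha_sub hy (ZFSet.mem_powerset.1 (ZFSet.mem_sep.1 hz).1 hs)

theorem Lh_trans (ha : a.IsTransitive) (ξ : On) : (Lh a ξ).IsTransitive := by
  induction ξ using Ordinal.limitRecOn with
  | zero =>
    rw [lha_zero]
    intro x hx s hs
    refine ZFSet.mem_insert_of_mem _ ?_
    rcases ZFSet.mem_insert_iff.1 hx with rfl | hx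
    · exact hs
    · exact ha x hx hs
  | add_one ξ ih =>
    rw [lha_succ]
    exact lha_tr ih
  | limit l hl ih =>
    intro x hx s hs
    obtain ⟨ξ, h1, h2⟩ := (lha_limit hl).1 hx
    exact (lha_limit hl).2 ⟨ξ, h1, ih ξ h1 x h2 hs⟩

theorem Lh_mono (ha : a.IsTransitive) {ξ ζ : On} (h : ξ ≤ ζ) : Lh a ξ ⊆ Lh a ζ := by
  induction ζ using Ordinal.limitRecOn with
  | zero =>
    rw [le_antisymm h zero_le]
  | add_one ζ ih =>
    rcases h.eq_or_lt with rfl | h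
    · exact fun _ hx => hx
    · rw [lha_succ]
      exact fun _ hx => lha_sub (Lh_trans ha ζ) (ih (Order.lt_add_one_iff.1 h) hx)
  | limit l hl _ =>
    rcases h.eq_or_lt with rfl | h
    · exact fun _ hx => hx
    · exact fun _ hx => (lha_limit hl).2 ⟨ξ, h, hx⟩

theorem Lh_base (ha : a.IsTransitive) (ξ : On) {x : ZFSet.{0}} (h : x ∈ insert a a) :
    x ∈ Lh a ξ :=
  Lh_mono ha (zero_le : (0 : On) ≤ ξ) (lha_zero (a := a) ▸ h)

theorem Lh_lim {l : On} (hl : Order.IsSuccLimit l) {x : ZFSet.{0}} (h : x ∈ Lh a l) :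
    ∃ ξ < l, x ∈ Lh a ξ :=
  (lha_limit hl).1 h

/-- Separation. -/
theorem Lh_sep (ha : a.IsTransitive) (P : Set ZFSet.{0} → (ℕ → ZFSet.{0}) → Prop) [ZD false P]
    (ξ : On) (v : ℕ → ZFSet.{0}) (hv : ∀ i, v i ∈ Lh a ξ) :
    (Lh a ξ).sep (fun t => P {x | x ∈ Lh a ξ} (sc t v)) ∈ Lh a (ξ + 1) := by
  obtain ⟨φ, -, h2⟩ := ZD.ex (b := false) (P := P)
  have htr : Tr {x | x ∈ Lh a ξ} := fun x hx y hy => Lh_trans ha ξ x hx hy
  have hup : ∀ t, Function.update (sc (v 0) v) 0 t = sc t v := fun t => by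
    funext n
    cases n with
    | zero => rfl
    | succ n => rfl
  rw [lha_succ]
  refine ZFSet.mem_sep.2 ⟨ZFSet.mem_powerset.2 fun _ hx => (ZFSet.mem_sep.1 hx).1, φ,
    sc (v 0) v, sc_mem (S := {x | x ∈ Lh a ξ}) (hv 0) hv, fun t => ?_⟩
  rw [ZFSet.mem_sep, hup]
  exact and_congr_right fun ht =>
    (h2 _ _ htr (sc_mem (S := {x | x ∈ Lh a ξ}) ht hv)).symm

theorem lha_two (ha : a.IsTransitive) {l : On} (hl : Order.IsSuccLimit l) {x y : ZFSet.{0}}
    (hx : x ∈ Lh a l) (hy : y ∈ Lh a l) :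
    ∃ ξ, x ∈ Lh a ξ ∧ y ∈ Lh a ξ ∧ Lh a (ξ + 1) ⊆ Lh a l := by
  obtain ⟨ξ, h1, h2⟩ := Lh_lim hl hx
  obtain ⟨ζ, h3, h4⟩ := Lh_lim hl hy
  exact ⟨max ξ ζ, Lh_mono ha (le_max_left _ _) h2, Lh_mono ha (le_max_right _ _) h4,
    Lh_mono ha (Order.add_one_le_iff.2 (max_lt h1 h3))⟩

theorem Lh_insert (ha : a.IsTransitive) {l : On} (hl : Order.IsSuccLimit l) {x y : ZFSet.{0}}
    (hx : x ∈ Lh a l) (hy : y ∈ Lh a l) : insert x y ∈ Lh a l := by
  obtain ⟨ξ, h1, h2, h3⟩ := lha_two ha hl hx hy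
  have h := Lh_sep ha (fun _ w => w 0 = w 1 ∨ w 0 ∈ w 2) ξ (sc x fun _ => y)
    (sc_mem (S := {x | x ∈ Lh a ξ}) h1 fun _ => h2)
  refine h3 ?_
  convert h using 1
  ext t
  rw [ZFSet.mem_sep, ZFSet.mem_insert_iff]
  refine ⟨fun ht => ⟨?_, ht⟩, fun ht => ht.2⟩
  rcases ht with rfl | ht
  · exact h1
  · exact Lh_trans ha ξ y h2 ht

theorem lha_single (ha : a.IsTransitive) {l : On} (hl : Order.IsSuccLimit l) {x : ZFSet.{0}}
    (hx : x ∈ Lh a l) : ({x} : ZFSet.{0}) ∈ Lh a l := by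
  obtain ⟨ξ, h1, -, h3⟩ := lha_two ha hl hx hx
  have h := Lh_sep ha (fun _ w => w 0 = w 1) ξ (fun _ => x) fun _ => h1
  refine h3 ?_
  convert h using 1
  ext t
  rw [ZFSet.mem_sep, ZFSet.mem_singleton]
  exact ⟨fun ht => ⟨ht ▸ h1, ht⟩, fun ht => ht.2⟩

theorem Lh_pair (ha : a.IsTransitive) {l : On} (hl : Order.IsSuccLimit l) {x y : ZFSet.{0}}
    (hx : x ∈ Lh a l) (hy : y ∈ Lh a l) : ZFSet.pair x y ∈ Lh a l :=
  Lh_insert ha hl (lha_single ha hl hx)
    (lha_single ha hl (Lh_insert ha hl hx (lha_single ha hl hy)))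

theorem lha_ord (ha : a.IsTransitive) (α : On) : α.toZFSet ∈ Lh a (α + 1) := by
  induction α using WellFoundedLT.induction with
  | ind α ih =>
    by_cases h0 : α.toZFSet ∈ Lh a α
    · exact Lh_mono ha le_self_add h0
    have h := Lh_sep ha (fun _ w => (w 0).IsOrdinal) α (fun _ => a)
      fun _ => Lh_base ha α (ZFSet.mem_insert _ _)
    convert h using 1
    ext t
    rw [ZFSet.mem_sep, Ordinal.mem_toZFSet_iff]
    constructor
    · rintro ⟨β, hβ, rfl⟩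
      exact ⟨Lh_mono ha (Order.add_one_le_iff.2 hβ) (ih β hβ), ZFSet.isOrdinal_toZFSet β⟩
    · rintro ⟨h1, h2⟩
      have h3 : t.rank.toZFSet = t := ZFSet.IsOrdinal.toZFSet_rank_eq h2
      refine ⟨t.rank, ?_, h3⟩
      by_contra h4
      rcases (not_lt.1 h4).eq_or_lt with e | e
      · exact h0 (by rw [e, h3]; exact e ▸ h1)
      · refine h0 (Lh_trans ha α t h1 ?_)
        rw [← h3]
        exact Ordinal.toZFSet_mem_toZFSet_iff.2 e

theorem Lh_ord (ha : a.IsTransitive) {α ξ : On} (h : α < ξ) : α.toZFSet ∈ Lh a ξ :=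
  Lh_mono ha (Order.add_one_le_iff.2 h) (lha_ord ha α)

theorem Bdd.bound {x : ZFSet.{0}} {l : On} (h : Bdd univ x l) (g : ZFSet.{0} → On)
    (hg : ∀ z ∈ x, g z < l) : ∃ b < l, ∀ z ∈ x, g z < b := by
  let _ : Definable₁ fun z => (g z).toZFSet := Classical.allZFSetDefinable _
  obtain ⟨b, hb, h2⟩ := h (ZFSet.map (fun z => (g z).toZFSet) x) (mem_univ _)
    (map_isFunc.2 fun z hz => Ordinal.toZFSet_mem_toZFSet_iff.2 (hg z hz))
  exact ⟨b, hb, fun z hz =>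
    Ordinal.toZFSet_mem_toZFSet_iff.1 (h2 z _ (ZFSet.mem_map.2 ⟨z, hz, rfl⟩))⟩

theorem lhb_cof {x : ZFSet.{0}} {l : On} (hl : 0 < l) (h : Bdd univ x l) : x.card < l.cof := by
  by_contra hc
  rw [not_lt] at hc
  obtain ⟨S, hS, hS'⟩ := Order.exists_cof_eq l.ToType
  rw [Ordinal.cof_toType] at hS'
  rw [← hS'] at hc
  obtain ⟨e⟩ := hc
  have hinj : Function.Injective fun s : S => (((equivShrink x).symm (e s) : x) : ZFSet.{0}) :=
    fun s t hst => e.injective ((equivShrink x).symm.injective (Subtype.ext hst))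
  obtain ⟨b, hb, h2⟩ := Bdd.bound h
    (Function.extend (fun s : S => (((equivShrink x).symm (e s) : x) : ZFSet.{0}))
      (fun s : S => Ordinal.typein (α := l.ToType) (· < ·) s.1) fun _ => 0) (by
      intro z _
      by_cases hz : ∃ s : S, (((equivShrink x).symm (e s) : x) : ZFSet.{0}) = z
      · obtain ⟨s, rfl⟩ := hz
        rw [hinj.extend_apply]
        exact Ordinal.typein_lt_self _
      · rw [Function.extend_apply' _ _ _ hz]
        exact hl)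
  have hb' : b < Ordinal.type (α := l.ToType) (· < ·) := by rwa [Ordinal.type_toType]
  obtain ⟨s, hs, hs'⟩ := hS (Ordinal.enum (α := l.ToType) (· < ·) ⟨b, hb'⟩)
  have h3 := h2 _ ((equivShrink x).symm (e ⟨s, hs⟩)).2
  rw [hinj.extend_apply] at h3
  rw [← not_lt, ← Ordinal.typein_le_typein, Ordinal.typein_enum] at hs'
  exact absurd h3 (not_lt.2 hs')

theorem Reg.regular {l : On} (h : Reg univ l) :
    ∃ κ : Cardinal.{0}, κ.IsRegular ∧ ℵ₀ < κ ∧ κ.ord = l := by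
  obtain ⟨-, h1, h2⟩ := h
  have he : l.cof.ord = l := by
    refine le_antisymm (Ordinal.ord_cof_le l) (not_lt.1 fun hlt => ?_)
    have := lhb_cof (Ordinal.omega0_pos.trans h1) (h2 _ hlt)
    rw [Ordinal.card_toZFSet, Cardinal.card_ord] at this
    exact lt_irrefl _ this
  have h3 : ℵ₀ < l.cof := by
    rw [← Cardinal.ord_lt_ord, Cardinal.ord_aleph0, he]
    exact h1
  exact ⟨l.cof, ⟨h3.le, by rw [he]⟩, h3, he⟩

theorem Bdd.card_lt {x : ZFSet.{0}} {κ : Cardinal.{0}} (hκ : 0 < κ) (h : Bdd univ x κ.ord) :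
    x.card < κ := by
  have h0 : 0 < κ.ord := by
    rw [Cardinal.lt_ord, Ordinal.card_zero]
    exact hκ
  exact (lhb_cof h0 h).trans_le (Ordinal.cof_ord_le κ)

theorem Reflecting.inacc {k : On} (h : Reflecting univ k) :
    ∃ κ : Cardinal.{0}, κ.IsInaccessible ∧ κ.ord = k := by
  obtain ⟨h1, h2, -⟩ := h
  obtain ⟨κ, hr, h0, rfl⟩ := Reg.regular h1
  refine ⟨κ, ⟨h0, hr.le_cof_ord, fun c hc => ?_⟩, rfl⟩
  have := Bdd.card_lt hr.pos (h2 c.ord (Cardinal.ord_lt_ord.2 hc) (powerset c.ord.toZFSet)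
    (mem_univ _) fun z => by simp)
  rwa [card_powerset, Ordinal.card_toZFSet, Cardinal.card_ord] at this

/-- The increasing enumeration of a club. -/
theorem exists_enum {κ : Cardinal.{0}} (hκ : κ.IsRegular) {I : ZFSet.{0}}
    (hI : Club Mem κ.ord.toZFSet I) :
    ∃ ι : On → On, StrictMono ι ∧ ∀ α < κ.ord, ι α < κ.ord ∧ (ι α).toZFSet ∈ I := by
  obtain ⟨h1, h2, -⟩ := hI
  have hS : ¬ BddAbove ({α : On | α.toZFSet ∈ I} ∪ Ici κ.ord) :=
    fun h => not_bddAbove_Ici κ.ord (h.mono subset_union_right)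
  have key : ∀ α : On, α < κ.ord →
      Ordinal.enumOrd ({α : On | α.toZFSet ∈ I} ∪ Ici κ.ord) α < κ.ord := by
    intro α
    induction α using WellFoundedLT.induction with
    | ind α ih =>
      intro hα
      have hb : ⨆ t : α.ToType, Ordinal.enumOrd ({α : On | α.toZFSet ∈ I} ∪ Ici κ.ord)
          (Ordinal.typein (α := α.ToType) (· < ·) t) < κ.ord := by
        apply Ordinal.iSup_lt_of_lt_cof
        · rw [hκ.cof_ord, Cardinal.mk_toType]
          exact Cardinal.lt_ord.1 hα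
        · intro t
          exact ih _ (Ordinal.typein_lt_self t) ((Ordinal.typein_lt_self t).trans hα)
      obtain ⟨x, hx, hbx⟩ := h2 _ (Ordinal.toZFSet_mem_toZFSet_iff.2 hb)
      obtain ⟨c, hc, rfl⟩ := Ordinal.mem_toZFSet_iff.1 (h1 x hx)
      refine lt_of_le_of_lt (Ordinal.enumOrd_le_of_forall_lt (Or.inl hx) fun β hβ => ?_) hc
      refine lt_of_le_of_lt ?_ (Ordinal.toZFSet_mem_toZFSet_iff.1 hbx)
      have hβ' : β < Ordinal.type (α := α.ToType) (· < ·) := by rwa [Ordinal.type_toType]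
      have := Ordinal.le_iSup (fun t : α.ToType =>
        Ordinal.enumOrd ({α : On | α.toZFSet ∈ I} ∪ Ici κ.ord)
          (Ordinal.typein (α := α.ToType) (· < ·) t))
        (Ordinal.enum (α := α.ToType) (· < ·) ⟨β, hβ'⟩)
      rwa [Ordinal.typein_enum] at this
  refine ⟨_, Ordinal.enumOrd_strictMono hS, fun α hα => ⟨key α hα, ?_⟩⟩
  rcases Ordinal.enumOrd_mem hS α with h | h
  · exact h
  · exact absurd (key α hα) (not_lt.2 h)

/-- Codes for the elements of a type. -/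
theorem exists_code (X : Type) : ∃ ε : X → On, Function.Injective ε ∧ ∀ x, ε x < (#X).ord :=
  ⟨fun x => Ordinal.typein (α := (#X).ord.ToType) (· < ·)
      ((Cardinal.eq.1 (Cardinal.mk_ord_toType #X)).some.symm x),
    fun _ _ h => (Equiv.injective _) (Ordinal.typein_injective _ h),
    fun _ => Ordinal.typein_lt_self _⟩

/-- The natural number `n` as a set. -/
noncomputable def nz (n : ℕ) : ZFSet.{0} := (n : On).toZFSet

/-- The code of a list. -/
noncomputable def lz (l : List ℕ) : ZFSet.{0} := nz (Encodable.encode l)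

theorem nz_inj : Function.Injective nz := fun _ _ h =>
  Nat.cast_injective (R := On) (Ordinal.toZFSet_injective h)

theorem lz_inj : Function.Injective lz := fun _ _ h => Encodable.encode_injective (nz_inj h)

theorem mem_om {z : ZFSet.{0}} : z ∈ (Ordinal.omega0 : On).toZFSet ↔ ∃ n, z = nz n := by
  rw [Ordinal.mem_toZFSet_iff]
  constructor
  · rintro ⟨α, h, rfl⟩
    obtain ⟨n, rfl⟩ := Ordinal.lt_omega0.1 h
    exact ⟨n, rfl⟩
  · rintro ⟨n, rfl⟩
    exact ⟨n, Ordinal.natCast_lt_omega0 n, rfl⟩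

/-- The finite function `i ↦ w i` on the first `n` values of `u`. -/
noncomputable def fz (u w : ℕ → ZFSet.{0}) : ℕ → ZFSet.{0}
  | 0 => ∅
  | n + 1 => insert (ZFSet.pair (u n) (w n)) (fz u w n)

theorem mem_fz {u w : ℕ → ZFSet.{0}} {n : ℕ} {z : ZFSet.{0}} :
    z ∈ fz u w n ↔ ∃ i < n, z = ZFSet.pair (u i) (w i) := by
  induction n with
  | zero => simp [fz]
  | succ n ih =>
    rw [fz, ZFSet.mem_insert_iff, ih, Nat.exists_lt_succ_right, or_comm]

/-- The set of the values of `f` on `S`. -/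
noncomputable def rz {X : Type*} [Small.{0} X] (f : X → ZFSet.{0}) (S : Set X) : ZFSet.{0} :=
  ZFSet.range fun x : S => f x.1

theorem mem_rz {X : Type*} [Small.{0} X] {f : X → ZFSet.{0}} {S : Set X} {z : ZFSet.{0}} :
    z ∈ rz f S ↔ ∃ x ∈ S, z = f x := by
  rw [rz, ZFSet.mem_range]
  exact ⟨fun ⟨x, h⟩ => ⟨x.1, x.2, h.symm⟩, fun ⟨x, h1, h2⟩ => ⟨⟨x, h1⟩, h2.symm⟩⟩

instance zd_pm (b : Bool) (i j k : ℕ) : ZD b fun _ v => ZFSet.pair (v i) (v j) ∈ v k :=
  ZD.encMem b [i, j] k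

instance zd_tm (b : Bool) (i j k l : ℕ) :
    ZD b fun _ v => ZFSet.pair (v i) (ZFSet.pair (v j) (v k)) ∈ v l :=
  ZD.encMem b [i, j, k] l

instance zd_qm (b : Bool) (i j k l m : ℕ) :
    ZD b fun _ v => ZFSet.pair (v i) (ZFSet.pair (v j) (ZFSet.pair (v k) (v l))) ∈ v m :=
  ZD.encMem b [i, j, k, l] m

end Pool.Agent.MP_fd3eaf_lc.Up
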