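import Pool.Agent.MP_fd3eaf_lc.Up.Proj
import Pool.Agent.MP_fd3eaf_lc.Up.Lh

/-!
Reflection of the statement that some extension forces a `Π^1_3` statement.
-/

set_option autoImplicit false

namespace Pool.Agent.MP_fd3eaf_lc.Up

open Pool.Agent.Lib.Forcing Pool.Agent.Lib.PosetForcing ZFSet Function Set Cardinal

/-- Below `q` the extension by `C` contains a real `x` that satisfies the `Π^1_3` statement. -/
def Wit (T : Sch) (A1 A2 : Set ℕ) {B0 : Type} [CompleteBooleanAlgebra B0] (r : ℕ → B0) (b : B0)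
    (C : Type) [CompleteBooleanAlgebra C] : Prop :=
  ∃ (i : CompleteLatticeHom B0 C) (q : C) (x : ℕ → C), Injective i ∧ q ≠ ⊥ ∧ q ≤ i b ∧
    (∀ n ∈ A1, x n = i (r n)) ∧ ∀ y : ℕ → C, (∀ n ∈ A2, y n = x n) → q ≤ SV T y

section zf
variable (u : ℕ → ZFSet.{0}) (P Le Pi q X K T W l f p : ZFSet.{0})

/-- `Le` is a preorder on `P` and `Pi` is a projection to the small algebra. -/
def ProjZ : Prop :=
  (∀ p, p ∈ P → pair p p ∈ Le) ∧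
  (∀ p, p ∈ P → ∀ s, s ∈ P → ∀ t, t ∈ P → pair p s ∈ Le → pair s t ∈ Le → pair p t ∈ Le) ∧
  (∀ p, p ∈ P → ∃ b, b ∈ u 1 ∧ pair p b ∈ Pi) ∧
  (∀ p, p ∈ P → ∀ s, s ∈ P → ∀ b, b ∈ u 1 → ∀ c, c ∈ u 1 → pair p b ∈ Pi → pair s c ∈ Pi →
    pair s p ∈ Le → pair c b ∈ u 2)

def ExtZ : Prop :=
  (∀ p, p ∈ P → ∀ b, b ∈ u 1 → pair p b ∈ Pi → ∀ c, c ∈ u 1 → pair c b ∈ u 2 →
    ∃ s, s ∈ P ∧ pair s p ∈ Le ∧ ∃ d, d ∈ u 1 ∧ pair s d ∈ Pi ∧ pair d c ∈ u 2) ∧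
  ∀ b, b ∈ u 1 → ∃ p, p ∈ P ∧ ∃ c, c ∈ u 1 ∧ pair p c ∈ Pi ∧ pair c b ∈ u 2

def RealZ (K0 : ZFSet.{0}) : Prop :=
  q ∈ P ∧ (∃ b, b ∈ u 1 ∧ pair q b ∈ Pi ∧ b ∈ u 4) ∧
  (∀ n, n ∈ u 0 → n ∈ u 5 → ∀ p, p ∈ P →
    (pair n p ∈ X ↔ ∃ b, b ∈ u 1 ∧ pair p b ∈ Pi ∧ pair n b ∈ u 3)) ∧
  ∀ n, n ∈ u 0 → ∀ p, p ∈ P → pair n p ∈ K0

def LitZ : Prop :=
  (∀ n, n ∈ u 0 → pair l n ∈ u 8 → ∀ s, s ∈ P → pair s p ∈ Le →
    ∃ t, t ∈ P ∧ pair t s ∈ Le ∧ ∃ c, c ∈ P ∧ pair n c ∈ T ∧ pair t c ∈ Le) ∧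
  ∀ n, n ∈ u 0 → pair l n ∈ u 9 → ∀ c, c ∈ P → pair n c ∈ T → ∀ s, s ∈ P → pair s p ∈ Le →
    ¬ pair s c ∈ Le

def EdgZ : Prop :=
  ∀ i, i ∈ u 0 → ∀ j, j ∈ u 0 → pair l (pair i j) ∈ u 10 → ∀ a, a ∈ K → ∀ c, c ∈ K →
    pair i a ∈ f → pair j c ∈ f → a ∈ c

def ChiZ : Prop :=
  ∀ s, s ∈ P → pair s p ∈ Le → ∃ t, t ∈ P ∧ pair t s ∈ Le ∧ ∃ l', l' ∈ u 12 ∧ ∃ n, n ∈ u 0 ∧
    pair l (pair l' n) ∈ u 7 ∧ ∃ g, g ∈ K ∧ ∃ a, a ∈ K ∧ f ⊆ g ∧ pair n a ∈ g ∧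
      pair l' (pair g t) ∈ W

def PostZ : Prop :=
  (∀ l, l ∈ u 12 → ∀ f, f ∈ K → ∀ p, p ∈ P → pair l (pair f p) ∈ W →
    LitZ u P Le T l p ∧ EdgZ u K l f ∧ ChiZ u P Le K W l f p) ∧
  ∀ s, s ∈ P → pair s q ∈ Le → ∃ t, t ∈ P ∧ pair t s ∈ Le ∧ ∃ f, f ∈ K ∧
    pair (u 11) (pair f t) ∈ W

def BodyZ (o K0 : ZFSet.{0}) : Prop :=
  (o.IsOrdinal ∧ P ⊆ o) ∧ ProjZ u P Le Pi ∧ ExtZ u P Le Pi ∧ RealZ u P Pi q X K0 ∧
  ∀ T, T ∈ K → (∀ n, n ∈ u 0 → n ∈ u 6 → ∀ p, p ∈ P → (pair n p ∈ T ↔ pair n p ∈ X)) →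
    ∃ W, W ∈ K ∧ PostZ u P Le q K T W

variable (σ : ℕ → ℕ) (a b c d e g h i : ℕ)

instance : ZD true fun _ v => ProjZ (fun i => v (σ i)) (v a) (v b) (v c) := by
  unfold ProjZ
  refine @ZD.and _ _ _ inferInstance (@ZD.and _ _ _ inferInstance ?_)
  beta_reduce
  infer_instance

instance : ZD true fun _ v => ExtZ (fun i => v (σ i)) (v a) (v b) (v c) := by
  unfold ExtZ
  beta_reduce
  infer_instance

instance : ZD true fun _ v => RealZ (fun i => v (σ i)) (v a) (v b) (v c) (v d) (v e) := by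
  unfold RealZ
  beta_reduce
  infer_instance

instance : ZD true fun _ v => LitZ (fun i => v (σ i)) (v a) (v b) (v c) (v d) (v e) := by
  unfold LitZ
  beta_reduce
  infer_instance

instance : ZD true fun _ v => EdgZ (fun i => v (σ i)) (v a) (v b) (v c) := by
  unfold EdgZ
  beta_reduce
  infer_instance

instance : ZD true fun _ v =>
    ChiZ (fun i => v (σ i)) (v a) (v b) (v c) (v d) (v e) (v g) (v h) := by
  unfold ChiZ
  beta_reduce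
  infer_instance

instance : ZD true fun _ v => PostZ (fun i => v (σ i)) (v a) (v b) (v c) (v d) (v e) (v g) := by
  unfold PostZ
  beta_reduce
  infer_instance

theorem zd_body : ZD true fun _ v =>
    BodyZ (fun i => v (σ i)) (v a) (v b) (v c) (v d) (v e) (v g) (v h) (v i) := by
  unfold BodyZ
  beta_reduce
  infer_instance

theorem zs_body : ZS 2 fun M u => ∃ o ∈ M, ∃ P ∈ M, ∃ Le ∈ M, ∃ Pi ∈ M, ∃ q ∈ M, ∃ X ∈ M,
    ∃ K0 ∈ M, ∃ K ∈ M, ¬ ∃ T ∈ M, ¬ (BodyZ u P Le Pi q X K o K0 ∧ (T ⊆ K0 → T ∈ K)) :=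
  ((ZS.zero (P := fun _ v => BodyZ (fun i => v (i + 9)) (v 7) (v 6) (v 5) (v 4) (v 3) (v 1) (v 8)
    (v 2) ∧ (v 0 ⊆ v 2 → v 0 ∈ v 1)) (@ZD.and _ _ _ (zd_body (· + 9) ..) inferInstance)).up.ex.up.ex.ex.ex.ex.ex.ex.ex.ex :)

end zf

/-- The parameters of the reflected statement. -/
structure Par (T : Sch) (A1 A2 : Set ℕ) {B0 : Type} [CompleteBooleanAlgebra B0] (r : ℕ → B0)
    (b : B0) (e : {b : B0 // b ≠ ⊥} → ZFSet.{0}) (u : ℕ → ZFSet.{0}) : Prop where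
  h0 : ∀ z, z ∈ u 0 ↔ ∃ n, z = nz n
  h1 : ∀ z, z ∈ u 1 ↔ ∃ c, z = e c
  h2 : ∀ c d, pair (e c) (e d) ∈ u 2 ↔ c.1 ≤ d.1
  h3 : ∀ n c, pair (nz n) (e c) ∈ u 3 ↔ c.1 ≤ r n
  h4 : ∀ c, e c ∈ u 4 ↔ c.1 ≤ b
  h5 : ∀ n, nz n ∈ u 5 ↔ n ∈ A1
  h6 : ∀ n, nz n ∈ u 6 ↔ n ∈ A2
  h7 : ∀ l l' n, pair (lz l) (pair (lz l') (nz n)) ∈ u 7 ↔ (∃ k, l' = k :: l) ∧ n = l.length
  h8 : ∀ l n, pair (lz l) (nz n) ∈ u 8 ↔ (n, true) ∈ T.lits l
  h9 : ∀ l n, pair (lz l) (nz n) ∈ u 9 ↔ (n, false) ∈ T.lits l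
  h10 : ∀ l i j, pair (lz l) (pair (nz i) (nz j)) ∈ u 10 ↔
    i < l.length ∧ j < l.length ∧ T.edge l i j
  h11 : u 11 = lz []
  h12 : ∀ z, z ∈ u 12 ↔ ∃ l, z = lz l

theorem rz_iff {X : Type} {f : X → ZFSet.{0}} (hf : Injective f) {S : Set X} {x : X} :
    f x ∈ rz f S ↔ x ∈ S :=
  mem_rz.trans ⟨fun ⟨_, h1, h2⟩ => hf h2 ▸ h1, fun h => ⟨x, h, rfl⟩⟩

theorem rz_univ {X : Type} {f : X → ZFSet.{0}} {z : ZFSet.{0}} : z ∈ rz f univ ↔ ∃ x, z = f x :=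
  mem_rz.trans ⟨fun ⟨x, _, h⟩ => ⟨x, h⟩, fun ⟨x, h⟩ => ⟨x, trivial, h⟩⟩

/-- The pair of two codes. -/
noncomputable def pz {X Y : Type} (f : X → ZFSet.{0}) (g : Y → ZFSet.{0}) (x : X × Y) : ZFSet.{0} :=
  pair (f x.1) (g x.2)

theorem pz_inj {X Y : Type} {f : X → ZFSet.{0}} {g : Y → ZFSet.{0}} (hf : Injective f)
    (hg : Injective g) : Injective (pz f g) := fun _ _ h =>
  Prod.ext (hf (pair_inj.1 h).1) (hg (pair_inj.1 h).2)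

theorem rank_insert_lt {θ : On} (h : Order.IsSuccLimit θ) {x y : ZFSet.{0}} (hx : x.rank < θ)
    (hy : y.rank < θ) : (insert x y).rank < θ := by
  rw [rank_insert]
  exact max_lt (h.succ_lt hx) hy

theorem rank_pair_lt {θ : On} (h : Order.IsSuccLimit θ) {x y : ZFSet.{0}} (hx : x.rank < θ)
    (hy : y.rank < θ) : (pair x y).rank < θ := by
  have h1 : ∀ x : ZFSet.{0}, x.rank < θ → ({x} : ZFSet.{0}).rank < θ := fun x hx => by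
    rw [rank_singleton]
    exact h.succ_lt hx
  exact rank_insert_lt h (h1 x hx) (h1 _ (rank_insert_lt h hx (h1 y hy)))

theorem rank_nz {θ : On} (h : Order.IsSuccLimit θ) (n : ℕ) : (nz n).rank < θ := by
  rw [nz, Ordinal.rank_toZFSet]
  exact (Ordinal.natCast_lt_omega0 n).trans_le (Ordinal.omega0_le_of_isSuccLimit h)

theorem rank_rz {κ : Cardinal.{0}} (hκ : κ.IsRegular) {X : Type} (hX : #X < κ)
    {f : X → ZFSet.{0}} (hf : ∀ x, (f x).rank < κ.ord) (S : Set X) : (rz f S).rank < κ.ord := by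
  rw [rz, rank_range]
  exact Ordinal.iSup_lt_of_lt_cof (((mk_set_le S).trans_lt hX).trans_eq hκ.cof_ord.symm) fun x =>
    (isSuccLimit_ord hκ.aleph0_le).succ_lt (hf _)

theorem exists_par {κ : Cardinal.{0}} (hκ : κ.IsInaccessible) (T : Sch) (A1 A2 : Set ℕ)
    {B0 : Type} [CompleteBooleanAlgebra B0] (hB : #B0 < κ) (r : ℕ → B0) (b : B0) :
    ∃ e u, Injective e ∧ Par T A1 A2 r b e u ∧ ∀ i, (u i).rank < κ.ord := by
  obtain ⟨ε, h1, h2⟩ := exists_code {b : B0 // b ≠ ⊥}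
  have hB' : #{b : B0 // b ≠ ⊥} < κ := (mk_subtype_le _).trans_lt hB
  let e : {b : B0 // b ≠ ⊥} → ZFSet.{0} := fun c => (ε c).toZFSet
  have he : Injective e := Ordinal.toZFSet_injective.comp h1
  have hl := isSuccLimit_ord hκ.isRegular.aleph0_le
  have r1 : ∀ c, (e c).rank < κ.ord := fun c => by
    rw [Ordinal.rank_toZFSet]
    exact (h2 c).trans (ord_lt_ord.2 hB')
  have r2 : ∀ l, (lz l).rank < κ.ord := fun l => rank_nz hl _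
  have r3 : ∀ {X Y : Type} {f : X → ZFSet.{0}} {g : Y → ZFSet.{0}}, (∀ x, (f x).rank < κ.ord) →
      (∀ x, (g x).rank < κ.ord) → ∀ x, (pz f g x).rank < κ.ord := fun hf hg x =>
    rank_pair_lt hl (hf _) (hg _)
  have c1 : ∀ (X : Type) [Countable X], #X < κ := fun X _ => mk_le_aleph0.trans_lt hκ.aleph0_lt
  have c2 : ∀ {X Y : Type}, #X < κ → #Y < κ → #(X × Y) < κ := fun h1 h2 => by
    simpa using mul_lt_of_lt hκ.isRegular.aleph0_le h1 h2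
  let L : List ZFSet.{0} := [rz nz univ, rz e univ, rz (pz e e) {x | x.1.1 ≤ x.2.1},
    rz (pz nz e) {x | x.2.1 ≤ r x.1}, rz e {c | c.1 ≤ b}, rz nz A1, rz nz A2,
    rz (pz lz (pz lz nz)) {x | (∃ k, x.2.1 = k :: x.1) ∧ x.2.2 = x.1.length},
    rz (pz lz nz) {x | (x.2, true) ∈ T.lits x.1}, rz (pz lz nz) {x | (x.2, false) ∈ T.lits x.1},
    rz (pz lz (pz nz nz)) {x | x.2.1 < x.1.length ∧ x.2.2 < x.1.length ∧ T.edge x.1 x.2.1 x.2.2},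
    lz [], rz lz univ]
  refine ⟨e, fun i => L.getD i (nz 0), he, ⟨fun _ => rz_univ, fun _ => rz_univ,
    fun c d => rz_iff (pz_inj he he) (x := (c, d)),
    fun n c => rz_iff (pz_inj nz_inj he) (x := (n, c)), fun c => rz_iff he,
    fun n => rz_iff nz_inj, fun n => rz_iff nz_inj,
    fun l l' n => rz_iff (pz_inj lz_inj (pz_inj lz_inj nz_inj)) (x := (l, l', n)),
    fun l n => rz_iff (pz_inj lz_inj nz_inj) (x := (l, n)),
    fun l n => rz_iff (pz_inj lz_inj nz_inj) (x := (l, n)),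
    fun l i j => rz_iff (pz_inj lz_inj (pz_inj nz_inj nz_inj)) (x := (l, i, j)), rfl,
    fun _ => rz_univ⟩, fun i => ?_⟩
  have : ∀ x ∈ L, x.rank < κ.ord := by
    have R := @rank_rz κ hκ.isRegular
    have n := rank_nz hl
    simp only [L, List.forall_mem_cons]
    exact ⟨R (c1 _) n _, R hB' r1 _, R (c2 hB' hB') (r3 r1 r1) _, R (c2 (c1 _) hB') (r3 n r1) _,
      R hB' r1 _, R (c1 _) n _, R (c1 _) n _, R (c1 _) (r3 r2 (r3 r2 n)) _,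
      R (c1 _) (r3 r2 n) _, R (c1 _) (r3 r2 n) _, R (c1 _) (r3 r2 (r3 n n)) _, r2 _,
      R (c1 _) r2 _, by simp⟩
  beta_reduce
  by_cases hi : i < L.length
  · rw [List.getD_eq_getElem _ _ hi]
    exact this _ (List.getElem_mem hi)
  · rw [List.getD_eq_default _ _ (not_lt.1 hi)]
    exact rank_nz hl 0

variable {T : Sch} {A1 A2 : Set ℕ} {B0 : Type} [CompleteBooleanAlgebra B0] {r : ℕ → B0} {b : B0}
  {e : {b : B0 // b ≠ ⊥} → ZFSet.{0}} {u : ℕ → ZFSet.{0}}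

theorem exists_exists_eq_and' {X Y : Type*} {f : X → Y} {p : Y → Prop} :
    (∃ y, (∃ x, y = f x) ∧ p y) ↔ ∃ x, p (f x) :=
  ⟨fun ⟨_, ⟨x, h⟩, k⟩ => ⟨x, h ▸ k⟩, fun ⟨x, h⟩ => ⟨_, ⟨x, rfl⟩, h⟩⟩

theorem encode (he : Injective e) (hu : Par T A1 A2 r b e u) {C : Type} [CompleteBooleanAlgebra C]
    (hC : Wit T A1 A2 r b C) : ∃ o P Le Pi q X K0 K, BodyZ u P Le Pi q X K o K0 ∧
      ∀ T, T ⊆ K0 → T ∈ K := by
  obtain ⟨i, q, x, i1, i2, i3, i4, i5⟩ := hC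
  obtain ⟨ε, h1, h2⟩ := exists_code {c : C // c ≠ ⊥}
  let d : {c : C // c ≠ ⊥} → ZFSet.{0} := fun c => (ε c).toZFSet
  have hd : Injective d := Ordinal.toZFSet_injective.comp h1
  choose γ W hW hW' using fun y : ℕ → C => exists_post T y
  let π : {c : C // c ≠ ⊥} → {b : B0 // b ≠ ⊥} := fun c => ⟨adj i c.1, adj_ne_bot i c.2⟩
  obtain ⟨θ, t1, t2, t3, t4⟩ : ∃ θ : On, Order.IsSuccLimit θ ∧ (∀ y, γ y < θ) ∧
      (∀ c, (d c).rank < θ) ∧ (rz (pz nz d) Set.univ).rank < θ := by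
    refine ⟨max (⨆ y, γ y) (max (⨆ c, (d c).rank) (rz (pz nz d) Set.univ).rank) + Ordinal.omega0,
      Ordinal.isSuccLimit_add _ Ordinal.isSuccLimit_omega0, fun y => ?_, fun c => ?_, ?_⟩ <;>
      refine lt_of_le_of_lt ?_ (lt_add_of_pos_right _ Ordinal.omega0_pos)
    · exact le_max_of_le_left (Ordinal.le_iSup γ y)
    · exact le_max_of_le_right (le_max_of_le_left (Ordinal.le_iSup (fun c => (d c).rank) c))
    · exact le_max_of_le_right (le_max_right _ _)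
  have mP : ∀ z, z ∈ rz d Set.univ ↔ ∃ c, z = d c := fun _ => rz_univ
  have mL : ∀ c c', pair (d c) (d c') ∈ rz (pz d d) {x | x.1 ≤ x.2} ↔ c ≤ c' := fun c c' =>
    rz_iff (pz_inj hd hd) (x := (c, c'))
  have mI : ∀ c c', pair (d c) (e c') ∈ rz (pz d e) {x | x.2 = π x.1} ↔ c' = π c := fun c c' =>
    rz_iff (pz_inj hd he) (x := (c, c'))
  have mX : ∀ n c, pair (nz n) (d c) ∈ rz (pz nz d) {t | t.2.1 ≤ x t.1} ↔ c.1 ≤ x n := fun n c =>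
    rz_iff (pz_inj nz_inj hd) (x := (n, c))
  have mK : ∀ z : ZFSet.{0}, z.rank ≤ θ → z ∈ vonNeumann (θ + 1) := fun z hz =>
    mem_vonNeumann.2 (Order.lt_add_one_iff.2 hz)
  refine ⟨(#{c : C // c ≠ ⊥}).ord.toZFSet, rz d Set.univ, rz (pz d d) {x | x.1 ≤ x.2},
    rz (pz d e) {x | x.2 = π x.1}, d ⟨q, i2⟩, rz (pz nz d) {t | t.2.1 ≤ x t.1},
    rz (pz nz d) Set.univ, vonNeumann (θ + 1), ⟨⟨isOrdinal_toZFSet _, fun z hz => ?_⟩, ?_, ?_, ?_,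
      fun Tz _ hT => ?_⟩, fun Tz hT => mK _ ((rank_mono hT).trans t4.le)⟩
  · obtain ⟨c, rfl⟩ := (mP z).1 hz
    exact Ordinal.toZFSet_mem_toZFSet_iff.2 (h2 c)
  · simp only [ProjZ, mP, hu.h1, forall_exists_index, forall_eq_apply_imp_iff, mL, mI, hu.h2,
      exists_exists_eq_and']
    refine ⟨fun _ => le_rfl, fun _ _ _ => le_trans, fun c => ⟨_, rfl⟩, ?_⟩
    rintro c c' _ rfl h
    exact adj_mono i h
  · simp only [ExtZ, mP, hu.h1, forall_exists_index, forall_eq_apply_imp_iff, mL, mI, hu.h2,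
      exists_exists_eq_and']
    refine ⟨?_, fun c => ⟨⟨i c.1, fun h => c.2 (i1 (h.trans (map_bot i).symm))⟩, _, rfl,
      (adj_map i i1 _).le⟩⟩
    rintro c _ rfl c' h
    exact ⟨⟨c.1 ⊓ i c'.1, adj_ext i h c'.2⟩, inf_le_left, _, rfl, (adj_le i).2 inf_le_right⟩
  · simp only [RealZ, mP, hu.h0, hu.h1, forall_exists_index, forall_eq_apply_imp_iff, mX, mI,
      hu.h3, hu.h4, hu.h5, exists_exists_eq_and', exists_eq_left]
    refine ⟨⟨_, rfl⟩, (adj_le i).2 i3, fun n hn c => ?_, fun n c => rz_univ.2 ⟨(n, c), rfl⟩⟩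
    rw [i4 n hn]
    exact (adj_le i).symm
  let y : ℕ → C := fun n => ⨆ (c : {c : C // c ≠ ⊥}) (_ : pair (nz n) (d c) ∈ Tz), c.1
  simp only [mP, hu.h0, forall_exists_index, forall_eq_apply_imp_iff, mX, hu.h6] at hT
  have hy : ∀ n ∈ A2, y n = x n := fun n hn => le_antisymm
    (iSup₂_le fun c hc => (hT n hn c).1 hc) (le_of_forall_ne fun c h1 h2 h3 => h2 (by
      rwa [inf_eq_left.2 (le_iSup₂_of_le (f := fun (c : {c : C // c ≠ ⊥})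
        (_ : pair (nz n) (d c) ∈ Tz) => c.1) ⟨c, h2⟩ ((hT n hn _).2 h1) le_rfl)] at h3))
  let F : (ℕ → On) → ℕ → ZFSet.{0} := fun ρ n => fz nz (fun i => (ρ i).toZFSet) n
  have rF : ∀ ρ n, (∀ i < n, ρ i < γ y) → (F ρ n).rank < θ := fun ρ n h => by
    induction n with
    | zero => simpa [F, fz] using t1.bot_lt
    | succ n ih =>
      refine rank_insert_lt t1 (rank_pair_lt t1 (rank_nz t1 _) ?_) (ih fun i hi => h i (by omega))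
      rw [Ordinal.rank_toZFSet]
      exact (h n (by omega)).trans (t2 y)
  let Wz := (vonNeumann θ).sep fun z => ∃ (l : List ℕ) (ρ : ℕ → On) (c : {c : C // c ≠ ⊥}),
    (∀ i < l.length, ρ i < γ y) ∧ c.1 ≤ W y l ρ ∧ z = pair (lz l) (pair (F ρ l.length) (d c))
  have mW : ∀ (l : List ℕ) (ρ : ℕ → On) (c : {c : C // c ≠ ⊥}), (∀ i < l.length, ρ i < γ y) →
      c.1 ≤ W y l ρ → pair (lz l) (pair (F ρ l.length) (d c)) ∈ Wz := fun l ρ c a1 a2 =>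
    mem_sep.2 ⟨mem_vonNeumann.2 (rank_pair_lt t1 (rank_nz t1 _)
      (rank_pair_lt t1 (rF ρ _ a1) (t3 c))), l, ρ, c, a1, a2, rfl⟩
  refine ⟨Wz, mK _ (subset_vonNeumann.1 (sep_subset)), ?_⟩
  simp only [PostZ, LitZ, EdgZ, ChiZ, mP, hu.h0, hu.h12, forall_exists_index,
    forall_eq_apply_imp_iff, mL, hu.h7, hu.h8, hu.h9, hu.h10, hu.h11, exists_exists_eq_and']
  refine ⟨fun l f _ c hc => ?_, fun c hc => ⟨⟨c.1, c.2⟩, le_rfl, _, mK _ (rF 0 0 (by simp)).le,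
    mW [] 0 c (by simp) (le_trans hc ((i5 y hy).trans (hW' y)))⟩⟩
  obtain ⟨-, l', ρ, c', a1, a2, a3⟩ := mem_sep.1 hc
  obtain rfl := lz_inj (pair_inj.1 a3).1
  obtain ⟨rfl, a4⟩ := pair_inj.1 (pair_inj.1 a3).2
  obtain rfl := hd a4
  have a5 := a2.trans ((hW y).le l ρ)
  refine ⟨⟨fun n hn s hs => ?_, fun n hn s hs t a6 a7 => t.2 ?_⟩,
    fun j k ⟨j1, j2, j3⟩ a _ a' _ a6 a7 => ?_, fun s hs => ?_⟩
  · have a6 : s.1 ≤ y n := le_trans hs (a5.trans (iInf₂_le (n, true) hn))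
    obtain ⟨t, a7⟩ := ne_bot_iSup (b := s.1) (by rw [inf_eq_left.2 a6]; exact s.2)
    obtain ⟨a8, a7⟩ := ne_bot_iSup a7
    exact ⟨⟨_, a7⟩, inf_le_left, t, a8, inf_le_right⟩
  · have a8 : t.1 ≤ (y n)ᶜ := le_trans a6 (a5.trans (iInf₂_le (n, false) hn))
    have a9 : t.1 ≤ y n := le_trans a7 (le_iSup₂_of_le s hs le_rfl)
    exact eq_bot_iff.2 ((le_inf a9 a8).trans inf_compl_eq_bot.le)
  · obtain ⟨j', -, a8⟩ := mem_fz.1 a6
    obtain ⟨k', -, a9⟩ := mem_fz.1 a7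
    obtain rfl := nz_inj (pair_inj.1 a8).1
    obtain rfl := nz_inj (pair_inj.1 a9).1
    rw [(pair_inj.1 a8).2, (pair_inj.1 a9).2, Ordinal.toZFSet_mem_toZFSet_iff]
    exact (hW y).ok l ρ (fun h => c.2 (eq_bot_iff.2 (a2.trans h.le))) j j1 k j2 j3
  · have a6 := (le_trans (show s.1 ≤ c.1 from hs) a2).trans ((hW y).step l ρ)
    obtain ⟨k, a7⟩ := ne_bot_iSup (b := s.1) (by rw [inf_eq_left.2 a6]; exact s.2)
    obtain ⟨α, a7⟩ := ne_bot_iSup a7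
    obtain ⟨a8, a7⟩ := ne_bot_iSup a7
    have a9 : ∀ j < (k :: l).length, update ρ l.length α j < γ y := fun j hj => by
      rw [update_apply]
      split_ifs with h
      exacts [a8, a1 j (by simp at hj; omega)]
    refine ⟨⟨_, a7⟩, inf_le_left, k :: l, l.length, ⟨⟨k, rfl⟩, rfl⟩, _, mK _ (rF _ _ a9).le,
      α.toZFSet, mK _ (by rw [Ordinal.rank_toZFSet]; exact (a8.trans (t2 y)).le),
      fun z hz => ?_, mem_fz.2 ⟨l.length, by simp, by simp⟩, mW (k :: l) _ ⟨_, a7⟩ a9 inf_le_right⟩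
    obtain ⟨j, j1, rfl⟩ := mem_fz.1 hz
    exact mem_fz.2 ⟨j, by simp; omega, by rw [update_of_ne j1.ne]⟩

theorem decode (hu : Par T A1 A2 r b e u) {o P Le Pi q X K0 K : ZFSet.{0}}
    (h : BodyZ u P Le Pi q X K o K0) (hK : ∀ T, T ⊆ K0 → T ∈ K) :
    ∃ (Q : Type) (_ : CompleteBooleanAlgebra Q), #Q ≤ 2 ^ o.rank.card ∧ Wit T A1 A2 r b Q := by
  obtain ⟨⟨o1, o2⟩, h1, h2, h3, h4⟩ := h
  obtain ⟨Pt, d, hd, mP, hc⟩ : ∃ (Pt : Type) (d : Pt → ZFSet.{0}), Injective d ∧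
      (∀ z, z ∈ P ↔ ∃ c, z = d c) ∧ #Pt = P.card :=
    ⟨Shrink P, fun c => ((equivShrink P).symm c).1,
      Subtype.val_injective.comp (Equiv.injective _),
      fun z => ⟨fun h => ⟨equivShrink P ⟨z, h⟩, by simp⟩, fun ⟨c, h⟩ => h ▸ Subtype.prop _⟩, rfl⟩
  simp only [ProjZ, mP, hu.h1, forall_exists_index, forall_eq_apply_imp_iff, hu.h2,
    exists_exists_eq_and'] at h1
  let _ : Preorder Pt :=
    { le := fun p s => pair (d p) (d s) ∈ Le, le_refl := h1.1, le_trans := h1.2.1 }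
  have mL : ∀ c c', pair (d c) (d c') ∈ Le ↔ c ≤ c' := fun _ _ => Iff.rfl
  choose π hπ using h1.2.2.1
  have mI : ∀ c c', pair (d c) (e c') ∈ Pi ↔ c' = π c := fun c c' =>
    ⟨fun h => Subtype.ext (le_antisymm (h1.2.2.2 c c _ _ (hπ c) h (h1.1 c))
      (h1.2.2.2 c c _ _ h (hπ c) (h1.1 c))), fun h => h ▸ hπ c⟩
  simp only [ExtZ, mP, hu.h1, forall_exists_index, forall_eq_apply_imp_iff, mL, mI, hu.h2,
    exists_exists_eq_and', exists_eq_left, forall_eq] at h2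
  obtain ⟨⟨q, rfl⟩, h3⟩ := (and_congr_left' (mP q)).1 h3
  simp only [mP, hu.h0, hu.h1, forall_exists_index, forall_eq_apply_imp_iff, mI,
    hu.h3, hu.h4, hu.h5, exists_exists_eq_and', exists_eq_left] at h3
  obtain ⟨i, i1, i2⟩ := exists_proj (fun p => (π p).1) (fun p => (π p).2)
    (fun p s h => h1.2.2.2 s p _ _ (hπ s) (hπ p) h) fun p c a1 a2 => h2.1 p ⟨c, a2⟩ a1
  have dn : ∀ {p : Pt} {c : RO Pt}, (∀ s ≤ p, ∃ t ≤ s, io t ≤ c) → io p ≤ c := fun {p c} h =>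
    le_of_io fun s hs => by
      obtain ⟨t, a1, a2⟩ := io_common (p := s) (q := p) (by rw [inf_eq_left.2 hs]; exact io_ne_bot s)
      obtain ⟨t', a3, a4⟩ := h t a2
      exact ⟨t', a3.trans a1, a4⟩
  let x : ℕ → RO Pt := fun n => ⨆ (p : Pt) (_ : pair (nz n) (d p) ∈ X), io p
  refine ⟨RO Pt, inferInstance, mk_RO_le.trans (power_le_power_left two_ne_zero ?_), i, io q, x,
    i2 fun c hc => h2.2 ⟨c, hc⟩, io_ne_bot q, (i1 _ _).2 h3.1, fun n hn => ?_, fun y hy => ?_⟩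
  · rw [hc, ← Ordinal.card_toZFSet, o1.toZFSet_rank_eq]
    exact card_mono o2
  · exact le_antisymm (iSup₂_le fun p hp => (i1 _ _).2 ((h3.2.1 n hn p).1 hp))
      (le_of_io fun p hp => ⟨p, le_rfl, le_iSup₂_of_le p ((h3.2.1 n hn p).2 ((i1 _ _).1 hp)) le_rfl⟩)
  let Tz := K0.sep fun z => ∃ n p, z = pair (nz n) (d p) ∧ (n ∈ A2 → z ∈ X) ∧ io p ≤ y n
  have mT : ∀ n p, pair (nz n) (d p) ∈ Tz ↔ (n ∈ A2 → pair (nz n) (d p) ∈ X) ∧ io p ≤ y n :=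
    fun n p => mem_sep.trans ⟨fun ⟨_, n', p', a1, a2⟩ => by
      obtain rfl := nz_inj (pair_inj.1 a1).1
      obtain rfl := hd (pair_inj.1 a1).2
      exact a2, fun h => ⟨h3.2.2 n p, n, p, rfl, h⟩⟩
  have y1 : ∀ n, y n ≤ ⨆ (p : Pt) (_ : pair (nz n) (d p) ∈ Tz), io p := fun n => by
    by_cases hn : n ∈ A2
    · rw [hy n hn]
      refine iSup₂_le fun p hp => le_iSup₂_of_le p ((mT n p).2 ⟨fun _ => hp, ?_⟩) le_rfl
      rw [hy n hn]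
      exact le_iSup₂_of_le p hp le_rfl
    · exact le_of_io fun p hp => ⟨p, le_rfl,
        le_iSup₂_of_le p ((mT n p).2 ⟨fun h => absurd h hn, hp⟩) le_rfl⟩
  obtain ⟨W, -, h5⟩ := h4 Tz (hK _ sep_subset) (by
    simp only [mP, hu.h0, forall_exists_index, forall_eq_apply_imp_iff, mT, hu.h6]
    refine fun n hn p => ⟨fun h => h.1 hn, fun h => ⟨fun _ => h, ?_⟩⟩
    rw [hy n hn]
    exact le_iSup₂_of_le p h le_rfl)
  simp only [PostZ, LitZ, EdgZ, ChiZ, mP, hu.h0, hu.h12, forall_exists_index,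
    forall_eq_apply_imp_iff, mL, hu.h7, hu.h8, hu.h9, hu.h10, hu.h11, exists_exists_eq_and'] at h5
  obtain ⟨h5, h6⟩ := h5
  let G : List ℕ → (ℕ → On) → Pt → Prop := fun l ρ p => ∃ f ∈ K, pair (lz l) (pair f (d p)) ∈ W ∧
    ∀ j < l.length, ∃ a ∈ K, pair (nz j) a ∈ f ∧ a.rank = ρ j
  have hp : Post T y K.rank fun l ρ => ⨆ (p : Pt) (_ : G l ρ p), io p := by
    refine ⟨fun l ρ => iSup₂_le fun p ⟨f, f1, f2, _⟩ => le_iInf₂ fun ⟨n, s⟩ hn => ?_,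
      fun l ρ h j j1 k k1 hjk => ?_, fun l ρ => iSup₂_le fun p ⟨f, f1, f2, f3⟩ => dn fun s hs => ?_⟩
    · cases s
      · refine le_compl_iff_disjoint_right.2 (disjoint_iff.2 (eq_bot_iff.2 ?_))
        refine (inf_le_inf_left _ (y1 n)).trans ?_
        rw [inf_iSup₂_eq]
        refine iSup₂_le fun c a1 => le_bot_iff.2 ?_
        by_contra a2
        obtain ⟨t, a3, a4⟩ := io_common a2
        exact (h5 l f f1 p f2).1.2 n hn c a1 t a3 a4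
      · refine dn fun s hs => ?_
        obtain ⟨t, a1, c, a2, a3⟩ := (h5 l f f1 p f2).1.1 n hn s hs
        exact ⟨t, a1, (io_mono a3).trans ((mT n c).1 a2).2⟩
    · obtain ⟨p, a1⟩ := ne_bot_iSup (b := ⊤) (f := fun p => ⨆ _ : G l ρ p, io p)
        (by rw [top_inf_eq]; exact h)
      obtain ⟨⟨f, f1, f2, f3⟩, -⟩ := ne_bot_iSup a1
      obtain ⟨a, a2, a3, a4⟩ := f3 j j1
      obtain ⟨c, a5, a6, a7⟩ := f3 k k1
      rw [← a4, ← a7]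
      exact rank_lt_of_mem ((h5 l f f1 p f2).2.1 j k ⟨j1, k1, hjk⟩ a a2 c a5 a3 a6)
    · obtain ⟨t, a1, _, _, ⟨⟨k, rfl⟩, rfl⟩, g, g1, a, a2, a3, a4, a5⟩ := (h5 l f f1 p f2).2.2 s hs
      refine ⟨t, a1, le_iSup₂_of_le k a.rank (le_iSup_of_le (rank_lt_of_mem a2)
        (le_iSup₂_of_le t ⟨g, g1, a5, fun j hj => ?_⟩ le_rfl))⟩
      by_cases e : j = l.length
      · exact ⟨a, a2, e ▸ a4, by rw [e, update_self]⟩
      · obtain ⟨c, a6, a7, a8⟩ := f3 j (by simp at hj; omega)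
        exact ⟨c, a6, a3 a7, by rw [update_of_ne e, a8]⟩
  refine le_trans (dn fun s hs => ?_) hp.le_SV
  obtain ⟨t, a1, f, a2, a3⟩ := h6 s hs
  exact ⟨t, a1, le_iSup₂_of_le t ⟨f, a2, a3, by simp⟩ le_rfl⟩

theorem reflect {κ : Cardinal.{0}} (hκ : κ.IsInaccessible) (h : Reflecting univ κ.ord) (T : Sch)
    (A1 A2 : Set ℕ) {B0 : Type} [CompleteBooleanAlgebra B0] (hB : #B0 < κ) (r : ℕ → B0) (b : B0)
    {C : Type} [CompleteBooleanAlgebra C] (hC : Wit T A1 A2 r b C) :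
    ∃ (Q : Type) (_ : CompleteBooleanAlgebra Q), #Q < κ ∧ Wit T A1 A2 r b Q := by
  obtain ⟨e, u, he, hu, hr⟩ := exists_par hκ T A1 A2 hB r b
  obtain ⟨φ, h1, h2⟩ := zs_body
  obtain ⟨o, P, Le, Pi, q, X, K0, K, h3, h4⟩ := encode he hu hC
  have h5 := (h2 Set.univ u (fun _ _ _ _ => trivial) fun _ => trivial).2 ⟨o, trivial, P, trivial, Le,
    trivial, Pi, trivial, q, trivial, X, trivial, K0, trivial, K, trivial,
    fun ⟨T, _, k⟩ => k ⟨h3, h4 T⟩⟩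
  obtain ⟨o, m1, P, -, Le, -, Pi, -, q, -, X, -, K0, m2, K, -, h6⟩ :=
    (h2 {x | x ∈ Set.univ ∧ x.rank < κ.ord} u
      (fun x hx y hy => ⟨trivial, (rank_lt_of_mem hy).trans hx.2⟩) fun i => ⟨trivial, hr i⟩).1
      ((h.2.2 φ h1 u fun i => ⟨trivial, hr i⟩).2 h5)
  push Not at h6
  obtain ⟨Q, _, h7, h8⟩ := decode hu (h6 o m1).1 fun T hT =>
    (h6 T ⟨trivial, (rank_mono hT).trans_lt m2.2⟩).2 hT
  exact ⟨Q, inferInstance, h7.trans_lt (hκ.isStrongLimit.isStrongPrelimit (lt_ord.1 m1.2)), h8⟩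

end Pool.Agent.MP_fd3eaf_lc.Up
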