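import Pool.Agent.MP_fd3eaf_lc.Up.Code

/-!
`Σ_3` statements about `H(ω₁)` are `Σ^1_4`.
-/

set_option autoImplicit false

namespace Pool.Agent.MP_fd3eaf_lc.Up

open Pool.Agent.Lib.Forcing Pool.Agent.Lib.Forcing.Nm Function

/-- The `n`-th relation coded by a real. -/
def ch {B : Type} (r : ℕ → B) (n j k : ℕ) : B := r (Nat.pair n (Nat.pair j k))

/-- The atoms of the real. -/
def zch (n j k : ℕ) : NF := .zl (Nat.pair n (Nat.pair j k)) true

open Classical in
/-- The atoms of the last structure. -/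
noncomputable def rch (L : Set ℕ) (n j k : ℕ) : NF :=
  if n ∈ L then .wl (.ch n j k) true else zch n j k

/-- The relation `ρ n` is contained in the edge relation for `n ∈ L`. -/
noncomputable def edgF (L : Set ℕ) (ρ : ℕ → ℕ → ℕ → NF) (g : ℕ → ℕ) : NF :=
  .all fun n => .guard (n ∈ L) (.all fun j => .all fun k =>
    (ρ n j k).neg.or (.wl (.edge (Nat.pair (g n) j) (Nat.pair (g n) k)) true))

noncomputable def illF (L : Set ℕ) : NF :=
  .ex fun n => (NF.guard (n ∈ L) ((NF.ex fun k => .wl (.z n k) true).and (.all fun k =>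
    (NF.wl (.z n k) true).neg.or (.ex fun j => (zch n j k).and (.wl (.z n j) true)))).neg).neg

def bisF (ρ : ℕ → ℕ → ℕ → NF) (u v : ℕ × ℕ) : NF :=
  (NF.all fun j => (ρ u.1 j u.2).neg.or
    (.ex fun k => (ρ v.1 k v.2).and (.wl (.eq (u.1, j) (v.1, k)) true))).and
  (.all fun k => (ρ v.1 k v.2).neg.or
    (.ex fun j => (ρ u.1 j u.2).and (.wl (.eq (u.1, j) (v.1, k)) true)))

def bisA (ρ : ℕ → ℕ → ℕ → NF) : NF :=
  .all fun a => .all fun b => .all fun c => .all fun d =>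
    ((NF.wl (.eq (a, b) (c, d)) true).neg.or (bisF ρ (a, b) (c, d))).and
      ((bisF ρ (a, b) (c, d)).neg.or (.wl (.eq (a, b) (c, d)) true))

section
variable {B : Type} [CompleteBooleanAlgebra B] (z : ℕ → B) (w : WV → B) {b : B}

theorem le_edgF (L : Set ℕ) (ρ : ℕ → ℕ → ℕ → NF) (g : ℕ → ℕ) : b ≤ (edgF L ρ g).ev z w ↔
    ∀ n ∈ L, ∀ j k, b ⊓ (ρ n j k).ev z w ≤ w (.edge (Nat.pair (g n) j) (Nat.pair (g n) k)) := by
  simp only [edgF, NF.ev_all, NF.ev_guard, NF.ev_or, NF.ev_neg, NF.ev_wl, le_iInf_iff,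
    le_compl_sup]

theorem ev_illF (L : Set ℕ) : (illF L).ev z w = ⨆ n ∈ L, illv (ch z n) fun k => w (.z n k) := by
  simp only [illF, zch, NF.ev_all, NF.ev_guard, NF.ev_or, NF.ev_neg, NF.ev_wl, NF.ev_ex, NF.ev_and,
    NF.ev_zl, compl_iInf, compl_compl]
  rfl

theorem le_bisA (ρ : ℕ → ℕ → ℕ → NF) : b ≤ (bisA ρ).ev z w ↔ ∀ u v, b ⊓ w (.eq u v) =
    b ⊓ bis (fun n j k => (ρ n j k).ev z w) (fun u v => w (.eq u v)) u v := by
  have e : ∀ u v, (bisF ρ u v).ev z w =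
      bis (fun n j k => (ρ n j k).ev z w) (fun u v => w (.eq u v)) u v := fun u v => by
    simp only [bisF, NF.ev_all, NF.ev_or, NF.ev_neg, NF.ev_wl, NF.ev_ex, NF.ev_and]
    rfl
  simp only [bisA, NF.ev_all, NF.ev_or, NF.ev_neg, NF.ev_wl, NF.ev_and, e, le_iInf_iff, le_inf_iff,
    le_compl_sup]
  refine ⟨fun h u v => le_antisymm (le_inf inf_le_left (h u.1 u.2 v.1 v.2).1)
    (le_inf inf_le_left (h u.1 u.2 v.1 v.2).2), fun h a c d f => ?_⟩
  exact ⟨(h _ _).le.trans inf_le_right, (h _ _).ge.trans inf_le_right⟩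

open Classical in
theorem ev_rch (L : Set ℕ) (n : ℕ) : (fun j k => (rch L n j k).ev z w) =
    if n ∈ L then (fun j k => w (.ch n j k)) else ch z n := by
  funext j k
  by_cases h : n ∈ L <;> simp only [rch, h, if_true, if_false] <;> rfl

omit [CompleteBooleanAlgebra B] in
theorem exists_real (r : ℕ → B) (L : Set ℕ) (R : ℕ → ℕ → ℕ → B) : ∃ x : ℕ → B,
    (∀ n ∈ {v : ℕ | v.unpair.1 ∉ L}, x n = r n) ∧ ∀ n ∈ L, ch x n = R n := by
  classical
  refine ⟨fun v => if v.unpair.1 ∈ L then R v.unpair.1 v.unpair.2.unpair.1 v.unpair.2.unpair.2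
    else r v, fun n hn => if_neg hn, fun n hn => ?_⟩
  funext j k
  simp [ch, hn]

omit [CompleteBooleanAlgebra B] in
theorem ch_eq {x r : ℕ → B} {L : Set ℕ} (h : ∀ n ∈ {v : ℕ | v.unpair.1 ∉ L}, x n = r n) {n : ℕ}
    (hn : n ∉ L) : ch x n = ch r n := by
  funext j k
  exact h _ (by simpa using hn)

theorem nf_tv {θ : Fml} {Θ : NF} {τ : ℕ → Nm B} {m : ℕ → ℕ → Nm B}
    (h : b ⊓ Θ.ev z w = b ⊓ tv θ fun i => m i 0) (hm : ∀ n, b ≤ eqv (τ n) (m n 0)) :
    b ≤ (Θ.ev z w)ᶜ ↔ b ≤ (tv θ τ)ᶜ := by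
  have e : b ⊓ Θ.ev z w = b ⊓ tv θ τ := h.trans (le_antisymm
    (le_inf inf_le_left (tv_congr θ fun i => by rw [eqv_symm]; exact hm i))
    (le_inf inf_le_left (tv_congr θ hm)))
  rw [le_compl_iff_disjoint_right, le_compl_iff_disjoint_right, disjoint_iff, disjoint_iff, e]

end

theorem trans3 {φ : Fml} (h : Sig 3 φ) : ∃ (T : Sch) (A1 A2 : Set ℕ),
    ∀ (B : Type) [CompleteBooleanAlgebra B] (b : B) (r : ℕ → B) (τ : ℕ → Nm B),
      (∀ n, Cd b (ch r n) (τ n)) → b ⊓ tv φ τ = b ⊓ Val3 T A1 A2 r := by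
  classical
  obtain ⟨L1, φ2, g2, k1⟩ := exists_block h
  obtain ⟨L2, φ1, g1, k2⟩ := exists_block g2
  obtain ⟨L3, θ, g0, k3⟩ := exists_block g1
  obtain ⟨Θ, k4⟩ := exists_nf (rch L3) (by cases g0; assumption : Delta0 θ) fun i => (i, 0)
  obtain ⟨T, hT⟩ := exists_sch ((edgF (L1 \ L2) zch fun n => 2 * n).and ((illF L2).or
    ((edgF L3 (rch L3) fun n => 2 * n + 1).and ((bisA (rch L3)).and Θ.neg))))
  refine ⟨T, {v | v.unpair.1 ∉ L1}, {v | v.unpair.1 ∉ L2}, fun B _ b r τ hτ =>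
    le_antisymm (le_inf inf_le_left ?_) (le_inf inf_le_left ?_)⟩
  · rw [k1, inf_iSup₂_eq]
    refine iSup₂_le fun τ1 a1 => ?_
    generalize hb1 : b ⊓ ((⨅ i ∈ L1, hcv (τ1 i)) ⊓ (tv φ2 τ1)ᶜ) = b1
    choose R1 hR1 using fun n => exists_cd (τ1 n)
    obtain ⟨x, x1, x2⟩ := exists_real r L1 R1
    have c1 : ∀ n, Cd b1 (ch x n) (τ1 n) := fun n => by
      by_cases hn : n ∈ L1
      · rw [x2 n hn]
        exact (hR1 n).mono (hb1.ge.trans (inf_le_right.trans (inf_le_left.trans (iInf₂_le n hn))))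
      · rw [ch_eq x1 hn, a1 n hn]
        exact (hτ n).mono (hb1.ge.trans inf_le_left)
    refine le_iSup₂_of_le x x1 (le_iInf₂ fun y hy => ?_)
    rw [hT]
    choose Z hZ using fun n => exists_ill (ch y n)
    have mk : ∀ (c : ℕ → ℕ → ℕ → B) (e : ℕ × ℕ → ℕ × ℕ → B), ∃ w : WV → B,
        (wfv fun a b => w (.edge a b)) = ⊤ ∧ b1 ≤ (edgF (L1 \ L2) zch fun n => 2 * n).ev y w ∧
        (∀ n j k, wfv (c n) ⊓ c n j k ≤
          w (.edge (Nat.pair (2 * n + 1) j) (Nat.pair (2 * n + 1) k))) ∧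
        (∀ n j k, w (.ch n j k) = c n j k) ∧ (∀ u v, w (.eq u v) = e u v) ∧
        ∀ n j, w (.z n j) = Z n j := fun c e => by
      obtain ⟨E, e1, e2⟩ := exists_union_wf fun N => if N % 2 = 0 then ch y (N / 2) else c (N / 2)
      refine ⟨fun v => WV.casesOn v E c e Z, e1, (le_edgF _ _ _ _ _).2 fun n hn j k => ?_,
        fun n j k => ?_, fun _ _ _ => rfl, fun _ _ => rfl, fun _ _ => rfl⟩
      · have := e2 (2 * n) j k
        rw [if_pos (by omega), show 2 * n / 2 = n by omega] at this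
        refine le_trans (inf_le_inf_right _ ?_) this
        rw [ch_eq hy hn.2]
        exact (c1 n).wf
      · have := e2 (2 * n + 1) j k
        rwa [if_neg (by omega), show (2 * n + 1) / 2 = n by omega] at this
    rw [← sup_inf_inf_compl (x := b1) (y := ⨅ n ∈ L2, wfv (ch y n))]
    refine sup_le ?_ ?_
    swap
    · obtain ⟨w, w1, w2, -, -, -, w6⟩ := mk ⊥ ⊥
      refine le_iSup_of_le w ?_
      rw [w1, inf_top_eq, NF.ev_and, NF.ev_or, ev_illF]
      refine inf_le_inf w2 (le_sup_of_le_left ?_)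
      simp only [compl_iInf, w6]
      exact iSup₂_mono fun n _ => hZ n
    generalize hb2 : b1 ⊓ ⨅ n ∈ L2, wfv (ch y n) = b2
    choose d hd using fun n => exists_dec (ch y n)
    let τ2 : ℕ → Nm B := fun n => if n ∈ L2 then d n else τ1 n
    have c2 : ∀ n, Cd b2 (ch y n) (τ2 n) := fun n => by
      by_cases hn : n ∈ L2
      · simp only [τ2, if_pos hn]
        exact (hd n).mono (hb2.ge.trans (inf_le_right.trans (iInf₂_le n hn)))
      · simp only [τ2, if_neg hn, ch_eq hy hn]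
        exact (c1 n).mono (hb2.ge.trans inf_le_left)
    have c3 : b2 ≤ tv φ1 τ2 := by
      have d1 : b2 ≤ (tv φ2 τ1)ᶜ :=
        hb2.ge.trans (inf_le_left.trans (hb1.ge.trans (inf_le_right.trans inf_le_right)))
      have d2 : b2 ⊓ (tv φ1 τ2)ᶜ ≤ tv φ2 τ1 := by
        rw [k2]
        exact le_iSup₂_of_le τ2 (fun i hi => if_neg hi)
          (inf_le_inf_right _ (le_iInf₂ fun i _ => (c2 i).hc))
      rw [← disjoint_compl_right_iff, disjoint_iff, eq_bot_iff]
      exact (le_inf d2 (inf_le_left.trans d1)).trans inf_compl_eq_bot.le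
    refine (le_inf le_rfl c3).trans ?_
    rw [k3, inf_iSup₂_eq]
    refine iSup₂_le fun τ3 a3 => ?_
    generalize hb3 : b2 ⊓ ((⨅ i ∈ L3, hcv (τ3 i)) ⊓ (tv θ τ3)ᶜ) = b3
    choose c hc using fun n => exists_cd (τ3 n)
    have c4 : ∀ n ∈ L3, Cd b3 (c n) (τ3 n) := fun n hn =>
      (hc n).mono (hb3.ge.trans (inf_le_right.trans (inf_le_left.trans (iInf₂_le n hn))))
    have c5 : ∀ n, Cd b3 (if n ∈ L3 then c n else ch y n) (τ3 n) := fun n => by
      split_ifs with hn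
      · exact c4 n hn
      · rw [a3 n hn]
        exact (c2 n).mono (hb3.ge.trans inf_le_left)
    choose m m1 m2 using c5
    obtain ⟨w, w1, w2, w3, w4, w5, -⟩ := mk c fun u v => eqv (m u.1 u.2) (m v.1 v.2)
    have c6 : ∀ n, (fun j k => (rch L3 n j k).ev y w) = if n ∈ L3 then c n else ch y n :=
      fun n => by simp only [ev_rch, w4]
    have c7 : ∀ n, Real b3 (fun j k => (rch L3 n j k).ev y w) (m n) := fun n => c6 n ▸ m1 n
    refine le_iSup_of_le w ?_
    rw [w1, inf_top_eq, NF.ev_and, NF.ev_or, NF.ev_and, NF.ev_and, NF.ev_neg]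
    refine le_inf (hb3.ge.trans (inf_le_left.trans (hb2.ge.trans (inf_le_left.trans w2))))
      (le_sup_of_le_right (le_inf ((le_edgF _ _ _ _ _).2 fun n hn j k => ?_)
        (le_inf ((le_bisA _ _ _).2 fun u v => ?_) ?_)))
    · refine le_trans (inf_le_inf (c4 n hn).wf ?_) (w3 n j k)
      rw [congrFun (congrFun (c6 n) j) k, if_pos hn]
    · simp only [w5]
      exact bis_eqv c7 u v
    · exact (nf_tv y w (k4 B y w b3 m c7 fun u v => by rw [w5]) m2).2
        (hb3.ge.trans (inf_le_right.trans inf_le_right))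
  · rw [Val3, inf_iSup₂_eq]
    refine iSup₂_le fun x hx => ?_
    generalize hb1 : b ⊓ ⨅ (y : ℕ → B) (_ : ∀ n ∈ {v : ℕ | v.unpair.1 ∉ L2}, y n = x n),
      SV T y = b1
    have s1 : ∀ y, (∀ n ∈ {v : ℕ | v.unpair.1 ∉ L2}, y n = x n) → b1 ≤ SV T y := fun y hy =>
      hb1.ge.trans (inf_le_right.trans (iInf₂_le y hy))
    have c0 : ∀ n ∈ L1 \ L2, b1 ≤ wfv (ch x n) := fun n hn => by
      refine (s1 x fun _ _ => rfl).trans ?_
      rw [hT]
      refine iSup_le fun w => ?_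
      rw [NF.ev_and]
      exact wfv_sub (Nat.pair (2 * n))
        ((le_edgF x w _ zch fun n => 2 * n).1 inf_le_left n hn)
    choose d hd using fun n => exists_dec (ch x n)
    let τ1 : ℕ → Nm B := fun n => if n ∈ L1 then (if n ∈ L2 then empN else d n) else τ n
    have c1 : ∀ n ∉ L2, Cd b1 (ch x n) (τ1 n) := fun n h2 => by
      by_cases hn : n ∈ L1
      · simp only [τ1, if_pos hn, if_neg h2]
        exact (hd n).mono (c0 n ⟨hn, h2⟩)
      · simp only [τ1, if_neg hn, ch_eq hx hn]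
        exact (hτ n).mono (hb1.ge.trans inf_le_left)
    rw [k1]
    refine le_iSup₂_of_le τ1 (fun i hi => if_neg hi) (le_inf (le_iInf₂ fun i hi => ?_) ?_)
    · by_cases h2 : i ∈ L2
      · simp only [τ1, if_pos hi, if_pos h2, hcv_emp, le_top]
      · exact (c1 i h2).hc
    rw [le_compl_iff_disjoint_right, disjoint_iff, eq_bot_iff, k2, inf_iSup₂_eq]
    refine iSup₂_le fun τ2 a2 => ?_
    rw [← inf_assoc, le_bot_iff, ← disjoint_iff, disjoint_compl_right_iff]
    generalize hb2 : b1 ⊓ ⨅ i ∈ L2, hcv (τ2 i) = b2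
    choose R2 hR2 using fun n => exists_cd (τ2 n)
    obtain ⟨y, y1, y2⟩ := exists_real x L2 R2
    have c2 : ∀ n, Cd b2 (ch y n) (τ2 n) := fun n => by
      by_cases hn : n ∈ L2
      · rw [y2 n hn]
        exact (hR2 n).mono (hb2.ge.trans (inf_le_right.trans (iInf₂_le n hn)))
      · rw [ch_eq y1 hn, a2 n hn]
        exact (c1 n hn).mono (hb2.ge.trans inf_le_left)
    refine (le_inf le_rfl (hb2.ge.trans (inf_le_left.trans (s1 y y1)))).trans ?_
    rw [hT, SemS, inf_iSup_eq]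
    refine iSup_le fun w => ?_
    rw [NF.ev_and, NF.ev_or, NF.ev_and, NF.ev_and, NF.ev_neg, ev_illF]
    refine le_trans (inf_le_inf_left _ (inf_le_inf_right _ inf_le_right)) ?_
    rw [inf_sup_right, inf_sup_left]
    refine sup_le (le_trans ?_ bot_le) ?_
    · refine (inf_le_inf_left _ inf_le_left).trans ?_
      rw [inf_iSup₂_eq]
      exact iSup₂_le fun n _ => (inf_le_inf (c2 n).wf (illv_le _ _)).trans inf_compl_eq_bot.le
    generalize hb4 : b2 ⊓ ((edgF L3 (rch L3) fun n => 2 * n + 1).ev y w ⊓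
      ((bisA (rch L3)).ev y w ⊓ (Θ.ev y w)ᶜ) ⊓ wfv fun a b => w (.edge a b)) = b4
    choose d3 hd3 using fun n => exists_dec fun j k => (rch L3 n j k).ev y w
    let τ3 : ℕ → Nm B := fun n => if n ∈ L3 then d3 n else τ2 n
    have c5 : ∀ n, Cd b4 (fun j k => (rch L3 n j k).ev y w) (τ3 n) := fun n => by
      by_cases hn : n ∈ L3
      · simp only [τ3, if_pos hn]
        refine (hd3 n).mono (hb4.ge.trans (inf_le_right.trans ?_))
        exact wfv_sub (Nat.pair (2 * n + 1))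
          ((le_edgF y w _ (rch L3) fun n => 2 * n + 1).1 inf_le_left n hn)
      · simp only [τ3, if_neg hn, ev_rch]
        exact (c2 n).mono (hb4.ge.trans inf_le_left)
    have c6 : ∀ n, b4 ≤ hcv (τ3 n) := fun n => (c5 n).hc
    choose m m1 m2 using c5
    have c7 : b4 ≤ (bisA (rch L3)).ev y w ⊓ (Θ.ev y w)ᶜ :=
      hb4.ge.trans (inf_le_right.trans (inf_le_left.trans inf_le_right))
    rw [k3]
    refine le_iSup₂_of_le τ3 (fun i hi => if_neg hi) (le_inf (le_iInf₂ fun i _ => c6 i) ?_)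
    exact (nf_tv y w (k4 B y w b4 m m1
      (bis_unique m1 ((le_bisA _ _ _).1 (c7.trans inf_le_left)))) m2).1 (c7.trans inf_le_right)

end Pool.Agent.MP_fd3eaf_lc.Up
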