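import Pool.Agent.MP_fd3eaf_lc.Defs

/-!
Generic absoluteness of `H(ω₁)` in the extension `V^B`, for all set forcing: a further extension
is given by a complete homomorphism `k : B → C` and an ultrafilter on `C`.
-/

set_option autoImplicit false

namespace Pool.Agent.MP_fd3eaf_lc

open Pool.Agent.Lib.Forcing

variable {B C : Type} [CompleteBooleanAlgebra B] [CompleteBooleanAlgebra C]

/-- The preimage of an ultrafilter. -/
def pull (k : CompleteLatticeHom B C) (U : Ult C) : Ult B where
  P b := U.P (k b)
  inf a b := by rw [map_inf, U.inf]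
  compl a := by rw [map_compl', U.compl]

/-- The image of a name. -/
def push (k : CompleteLatticeHom B C) : Nm B → Nm C
  | ⟨ι, A, a⟩ => ⟨ι, fun i => push k (A i), fun i => k (a i)⟩

/-- Boldface `Σ_3` absoluteness of `H(ω₁)` between `V^B` and all its set-generic extensions. -/
def AbsIn (B : Type) [CompleteBooleanAlgebra B] : Prop :=
  ∀ (C : Type) [CompleteBooleanAlgebra C] (k : CompleteLatticeHom B C) (φ : Fml), Sig 3 φ →
    ∀ (U : Ult C) (v : ℕ → Nm B), (∀ i, HC (pull k U).E ((pull k U).cl (v i))) →
      (SatIn (pull k U).E (HC (pull k U).E) φ (fun i => (pull k U).cl (v i)) ↔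
        SatIn U.E (HC U.E) φ fun i => U.cl (push k (v i)))

end Pool.Agent.MP_fd3eaf_lc
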