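import Pool.Agent.MP_fd3eaf_lc.Up.NF
import Pool.Agent.MP_fd3eaf_lc.Up.Defs
import Pool.Agent.Lib.PosetForcing.Basic

/-!
Hereditarily countable names are coded by relations on `ℕ`.
-/

set_option autoImplicit false

namespace Pool.Agent.MP_fd3eaf_lc.Up

open Pool.Agent.Lib.Forcing Pool.Agent.Lib.Forcing.Nm Function

variable {B C : Type} [CompleteBooleanAlgebra B] [CompleteBooleanAlgebra C]

instance rep_hc (x : Nm B) : Rep fun U : Ult B => HC U.E (U.cl x) := by
  unfold HC Om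
  infer_instance

/-- The value of: `x` is hereditarily countable. -/
noncomputable def hcv (x : Nm B) : B := bv fun U => HC U.E (U.cl x)

theorem hcv_iff (U : Ult B) (x : Nm B) : U.P (hcv x) ↔ HC U.E (U.cl x) := bv_iff _ U

/-- Below `b`, `m k = {m j | R j k}`. -/
def Real (b : B) (R : ℕ → ℕ → B) (m : ℕ → Nm B) : Prop :=
  ∀ k, b ≤ eqv (m k) ⟨ℕ, m, fun j => R j k⟩

/-- Below `b`, `x` is the collapse of `0` in `R`. -/
def Cd (b : B) (R : ℕ → ℕ → B) (x : Nm B) : Prop := ∃ m, Real b R m ∧ b ≤ eqv x (m 0)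

variable {b b' : B} {R : ℕ → ℕ → B} {m : ℕ → Nm B} {x : Nm B}

theorem Real.mono (h : Real b R m) (hb : b' ≤ b) : Real b' R m := fun k => hb.trans (h k)

theorem Cd.mono (h : Cd b R x) (hb : b' ≤ b) : Cd b' R x :=
  h.imp fun _ h => ⟨h.1.mono hb, hb.trans h.2⟩

theorem Real.intro (h : Real b R m) (j k : ℕ) : b ⊓ R j k ≤ mem (m j) (m k) :=
  (inf_le_inf_right _ (h k)).trans (eqv_right (m k) ⟨ℕ, m, fun j => R j k⟩ j)

theorem Real.elim (h : Real b R m) (y : Nm B) (k : ℕ) :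
    b ⊓ mem y (m k) ≤ ⨆ j, R j k ⊓ eqv y (m j) :=
  (inf_le_inf_right _ (h k)).trans (mem_congr_right y (m k) ⟨ℕ, m, fun j => R j k⟩)

theorem codea_mem_lst (h : Real b R m) (k : ℕ) (U : Ult B) (hU : U.P b) (z : U.M)
    (hz : U.E z (U.cl (m k))) : U.E z (U.cl (Lib.PosetForcing.lst m)) := by
  obtain ⟨y, rfl⟩ := U.cl_surj z
  refine sup_elim (fun j => R j k ⊓ eqv y (m j))
    (fun U => U.E (U.cl y) (U.cl (Lib.PosetForcing.lst m))) (fun V j hj => ?_) U
    (U.mono (h.elim y k) ((U.inf _ _).2 ⟨hU, hz⟩))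
  rw [V.inf, ← V.cl_eq] at hj
  rw [hj.2]
  exact Lib.PosetForcing.lst_intro V m j

theorem codea_le_lst (m : ℕ → Nm B) (U : Ult B) :
    Le U.E (fun z => U.E z (U.cl (Lib.PosetForcing.lst m))) (fun n => U.E n U.om) := by
  classical
  refine Lib.PosetForcing.le_gen m omN m numN
    (fun j => (Finset.range j).inf fun i => (eqv (m i) (m j))ᶜ) (fun V i => ?_)
    (fun V s t hs ht => ?_) U
  · obtain ⟨j, hj, hmin⟩ : ∃ j, V.cl (m j) = V.cl (m i) ∧ ∀ l < j, V.cl (m l) ≠ V.cl (m i) := by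
      have hex : ∃ j, V.cl (m j) = V.cl (m i) := ⟨i, rfl⟩
      exact ⟨Nat.find hex, Nat.find_spec hex, fun l hl => Nat.find_min hex hl⟩
    refine ⟨V.num j, V.num_mem_om _, ?_⟩
    rw [← hj]
    refine V.ap_grN m numN _ j ?_
    rw [V.finset_inf]
    intro l hl
    rw [V.compl, ← V.cl_eq, hj]
    exact hmin l (Finset.mem_range.1 hl)
  · rw [V.num_inj]
    refine ⟨fun e => ?_, fun e => e ▸ rfl⟩
    rw [V.finset_inf] at hs ht
    by_contra hne
    rcases lt_or_gt_of_ne hne with h | h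
    · exact (V.compl _).1 (ht s (Finset.mem_range.2 h)) (V.cl_eq.1 e)
    · exact (V.compl _).1 (hs t (Finset.mem_range.2 h)) (V.cl_eq.1 e.symm)

theorem Real.hc (h : Real b R m) (k : ℕ) : b ≤ hcv (m k) := by
  refine Ult.le_of fun U hU => (hcv_iff U _).2 ⟨U.cl (Lib.PosetForcing.lst m), fun y hy => ?_,
    codea_mem_lst h k U hU, U.om, U.om_om, codea_le_lst m U⟩
  exact Lib.PosetForcing.lst_elim m
    (fun V y => V.P b → ∀ z, V.E z y → V.E z (V.cl (Lib.PosetForcing.lst m)))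
    (fun V j hV => codea_mem_lst h j V hV) U y hy hU

theorem Cd.hc (h : Cd b R x) : b ≤ hcv x := by
  obtain ⟨m, h1, h2⟩ := h
  refine Ult.le_of fun U hU => (hcv_iff U x).2 ?_
  rw [U.cl_eq.2 (U.mono h2 hU)]
  exact (hcv_iff U _).1 (U.mono (h1.hc 0) hU)

theorem exists_cd (x : Nm B) : ∃ R, Cd (hcv x) R x := by
  obtain ⟨t, ht⟩ := exists_witness (fun (U : Ult B) t => (∀ y, U.E y t → ∀ z, U.E z y → U.E z t) ∧
    (∀ z, U.E z (U.cl x) → U.E z t) ∧ Le U.E (fun z => U.E z t) (fun n => U.E n U.om))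
  obtain ⟨f, hf⟩ := exists_witness (fun (U : Ult B) f =>
    (∀ z, U.E z (U.cl t) → ∃ y, U.E y U.om ∧ Ap U.E f z y) ∧
      ∀ z z' y y', Ap U.E f z y → Ap U.E f z' y' → (z = z' ↔ y = y'))
  have ha := fun n : ℕ => exists_witness (fun (U : Ult B) a =>
    (U.E a (U.cl t) ∧ Ap U.E (U.cl f) a (U.num n)) ∨
      ((¬ ∃ a, U.E a (U.cl t) ∧ Ap U.E (U.cl f) a (U.num n)) ∧ a = U.cl empN))
  choose a ha using ha
  have ha' : ∀ n (U : Ult B), (U.E (U.cl (a n)) (U.cl t) ∧
      Ap U.E (U.cl f) (U.cl (a n)) (U.num n)) ∨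
      ((¬ ∃ a, U.E a (U.cl t) ∧ Ap U.E (U.cl f) a (U.num n)) ∧ U.cl (a n) = U.cl empN) := by
    intro n U
    refine ha n U ?_
    by_cases h : ∃ a, U.E a (U.cl t) ∧ Ap U.E (U.cl f) a (U.num n)
    · exact h.imp fun _ => Or.inl
    · exact ⟨_, Or.inr ⟨h, rfl⟩⟩
  have ht' : ∀ U : Ult B, U.P (hcv x) → (∀ y, U.E y (U.cl t) → ∀ z, U.E z y → U.E z (U.cl t)) ∧
      (∀ z, U.E z (U.cl x) → U.E z (U.cl t)) ∧
        Le U.E (fun z => U.E z (U.cl t)) (fun n => U.E n U.om) := by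
    intro U hU
    obtain ⟨s, h1, h2, w, h3, h4⟩ := (hcv_iff U x).1 hU
    rw [U.om_unique h3] at h4
    exact ht U ⟨s, h1, h2, h4⟩
  let m : ℕ → Nm B := fun k => Nat.casesOn k x a
  have hsub : ∀ k (U : Ult B), U.P (hcv x) → ∀ z, U.E z (U.cl (m k)) → U.E z (U.cl t) := by
    intro k U hU z hz
    cases k with
    | zero => exact (ht' U hU).2.1 z hz
    | succ n =>
      rcases ha' n U with h | h
      · exact (ht' U hU).1 _ h.1 z hz
      · exact (U.emp_empN z (h.2 ▸ hz)).elim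
  refine ⟨fun j k => mem (m j) (m k), m, fun k => Ult.le_of fun U hU => ?_, (eqv_refl x).ge.trans' le_top⟩
  rw [← U.cl_eq]
  refine U.ext' _ _ fun z => ⟨fun hz => ?_, fun hz => ?_⟩
  · obtain ⟨y, hy, hzy⟩ := (hf U (ht' U hU).2.2).1 z (hsub k U hU z hz)
    refine om_elim (fun V y => V.P (hcv x) → ∀ z, V.E z (V.cl (m k)) → Ap V.E (V.cl f) z y →
      V.E z (V.cl ⟨ℕ, m, fun j => mem (m j) (m k)⟩)) (fun V n hV z hz hzn => ?_) U y hy hU z hz hzy
    rcases ha' n V with h | h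
    · have e : z = V.cl (m (n + 1)) := ((hf V (ht' V hV).2.2).2 _ _ _ _ hzn h.2).2 rfl
      rw [e] at hz ⊢
      exact V.E_intro ⟨ℕ, m, fun j => mem (m j) (m k)⟩ (n + 1) hz
    · exact (h.1 ⟨z, hsub k V hV z hz, hzn⟩).elim
  · exact mem_elim ⟨ℕ, m, fun j => mem (m j) (m k)⟩ (fun V z => V.E z (V.cl (m k)))
      (fun V j hj => hj) U z hz

theorem codeb_cover {ι : Sort*} {c y : B} {d : ι → B} (h : c ≤ ⨆ i, d i)
    (h' : ∀ i, c ⊓ d i ≤ y) : c ≤ y :=
  calc c = c ⊓ ⨆ i, d i := (inf_eq_left.2 h).symm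
    _ = ⨆ i, c ⊓ d i := inf_iSup_eq _ _
    _ ≤ y := iSup_le h'

theorem codeb_mem (h : Real b R m) (x : Nm B) (j k : ℕ) :
    b ⊓ eqv x (m k) ⊓ R j k ≤ ⨆ i, b ⊓ eqv (x.fn i) (m j) := by
  have h1 : b ⊓ eqv x (m k) ⊓ R j k ≤ mem (m j) x := by
    refine le_trans (le_inf ?_ ?_) (mem_congr_right (m j) (m k) x)
    · rw [eqv_symm (m k)]
      exact inf_le_left.trans inf_le_right
    · exact (inf_le_inf_right _ inf_le_left).trans (h.intro j k)
  refine codeb_cover h1 fun i => le_iSup_of_le i (le_inf ?_ ?_)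
  · exact inf_le_left.trans (inf_le_left.trans inf_le_left)
  · rw [eqv_symm (x.fn i)]
    exact inf_le_right.trans inf_le_right

theorem Real.wf (h : Real b R m) : b ≤ wfv R := by
  have key : ∀ x : Nm B, ∃ α : On, ∀ k, b ⊓ eqv x (m k) ≤ rkv R α k := by
    intro x
    induction x with
    | mk ι A a ih =>
      choose g hg using ih
      refine ⟨⨆ i, g i + 1, fun k => le_rkv.2 fun j => ?_⟩
      refine (codeb_mem h ⟨ι, A, a⟩ j k).trans (iSup_le fun i => ?_)
      exact le_iSup₂_of_le (g i) (Ordinal.lt_iSup_add_one g i) (hg i j)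
  refine le_iInf fun k => ?_
  obtain ⟨α, hα⟩ := key (m k)
  refine le_iSup_of_le α (le_trans ?_ (hα k))
  rw [eqv_refl, inf_top_eq]

theorem Cd.wf (h : Cd b R x) : b ≤ wfv R := h.elim fun _ h => h.1.wf

/-- The collapse of `k`, computed by recursion up to rank `α`. -/
noncomputable def codebD (R : ℕ → ℕ → B) (α : On) (k : ℕ) : Nm B :=
  ⟨ℕ × Shrink.{0} (Set.Iio α), fun p => codebD R ((equivShrink (Set.Iio α)).symm p.2).1 p.1,
    fun p => R p.1 k ⊓ rkv R ((equivShrink (Set.Iio α)).symm p.2).1 p.1⟩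
termination_by α
decreasing_by exact ((equivShrink (Set.Iio α)).symm p.2).2

theorem codeb_in (R : ℕ → ℕ → B) {α β : On} (h : β < α) (j k : ℕ) (y : Nm B) :
    R j k ⊓ rkv R β j ⊓ eqv y (codebD R β j) ≤ mem y (codebD R α k) := by
  rw [codebD.eq_1 R α k]
  refine le_mem (j, equivShrink (Set.Iio α) ⟨β, h⟩) ?_ ?_
  · simp only [Equiv.symm_apply_apply]
    exact inf_le_left
  · simp only [Equiv.symm_apply_apply]
    exact inf_le_right

theorem codeb_out (R : ℕ → ℕ → B) (α : On) (k : ℕ) {c : B} {y : Nm B}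
    (h1 : ∀ j, ∀ β < α, c ⊓ (R j k ⊓ rkv R β j) ≤ mem (codebD R β j) y)
    (h2 : ∀ i, c ⊓ y.val i ≤ mem (y.fn i) (codebD R α k)) : c ≤ eqv (codebD R α k) y := by
  refine le_eqv ?_ h2
  rw [codebD.eq_1 R α k]
  exact fun p => h1 p.1 _ ((equivShrink (Set.Iio α)).symm p.2).2

theorem codeb_eqv (R : ℕ → ℕ → B) (α α' : On) (k : ℕ) :
    rkv R α k ⊓ rkv R α' k ≤ eqv (codebD R α k) (codebD R α' k) := by
  induction α using WellFoundedLT.induction generalizing α' k with
  | _ α ih =>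
    refine codeb_out R α k (fun j β hβ => ?_) ?_
    · have h1 : rkv R α k ⊓ rkv R α' k ⊓ (R j k ⊓ rkv R β j) ≤ ⨆ β' < α', rkv R β' j :=
        (inf_le_inf inf_le_right inf_le_left).trans (rkv_elim R α' j k)
      refine codeb_cover h1 fun β' => ?_
      rw [inf_iSup_eq]
      refine iSup_le fun hβ' => le_trans (le_inf (le_inf ?_ inf_le_right) ?_)
        (codeb_in R hβ' j k _)
      · exact inf_le_left.trans (inf_le_right.trans inf_le_left)
      · exact (inf_le_inf_right _ (inf_le_right.trans inf_le_right)).trans (ih β hβ β' j)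
    · rw [codebD.eq_1 R α' k]
      rintro ⟨j, s⟩
      show rkv R α k ⊓ rkv R α' k ⊓ (R j k ⊓ rkv R ((equivShrink (Set.Iio α')).symm s).1 j) ≤
        mem (codebD R ((equivShrink (Set.Iio α')).symm s).1 j) (codebD R α k)
      generalize ((equivShrink (Set.Iio α')).symm s).1 = β'
      have h1 : rkv R α k ⊓ rkv R α' k ⊓ (R j k ⊓ rkv R β' j) ≤ ⨆ β < α, rkv R β j :=
        (inf_le_inf inf_le_left inf_le_left).trans (rkv_elim R α j k)
      refine codeb_cover h1 fun β => ?_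
      rw [inf_iSup_eq]
      refine iSup_le fun hβ => le_trans (le_inf (le_inf ?_ inf_le_right) ?_)
        (codeb_in R hβ j k _)
      · exact inf_le_left.trans (inf_le_right.trans inf_le_left)
      · rw [eqv_symm]
        exact (le_inf inf_le_right (inf_le_left.trans (inf_le_right.trans inf_le_right))).trans
          (ih β hβ β' j)

theorem exists_dec (R : ℕ → ℕ → B) : ∃ x, Cd (wfv R) R x := by
  obtain ⟨γ, hγ⟩ := exists_stab R
  have h1 : ∀ k, wfv R ≤ ⨆ β < γ, rkv R β k := fun k =>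
    (iInf_le _ k).trans (iSup_le fun α => hγ α k)
  have h2 : ∀ k, wfv R ≤ rkv R γ k := fun k =>
    (h1 k).trans (iSup₂_le fun _ hβ => rkv_mono R hβ.le k)
  refine ⟨codebD R γ 0, codebD R γ, fun k => ?_, by rw [eqv_refl]; exact le_top⟩
  refine codeb_out R γ k (fun j β _ => ?_) fun j => ?_
  · refine le_mem (y := ⟨ℕ, codebD R γ, fun j => R j k⟩) j (inf_le_right.trans inf_le_left) ?_
    exact (le_inf (inf_le_right.trans inf_le_right) (inf_le_left.trans (h2 j))).trans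
      (codeb_eqv R β γ j)
  · show wfv R ⊓ R j k ≤ mem (codebD R γ j) (codebD R γ k)
    refine codeb_cover (inf_le_left.trans (h1 j)) fun β => ?_
    rw [inf_iSup_eq]
    refine iSup_le fun hβ => le_trans (le_inf (le_inf ?_ inf_le_right) ?_) (codeb_in R hβ j k _)
    · exact inf_le_left.trans inf_le_right
    · exact (inf_le_inf_right _ (inf_le_left.trans (h2 j))).trans (codeb_eqv R γ β j)

theorem eqv_push (k : CompleteLatticeHom B C) (x y : Nm B) :
    eqv (push k x) (push k y) = k (eqv x y) := by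
  induction x generalizing y with
  | mk ι A a ih =>
    cases y with
    | mk κ D d =>
      simp only [eqv, push, map_inf, map_iInf, map_iSup, map_sup, map_compl', ih]

theorem Cd.push (h : Cd b R x) (k : CompleteLatticeHom B C) :
    Cd (k b) (fun i j => k (R i j)) (push k x) := by
  obtain ⟨m, h1, h2⟩ := h
  refine ⟨fun j => MP_fd3eaf_lc.push k (m j), fun j => ?_, ?_⟩
  · exact (OrderHomClass.mono k (h1 j)).trans (eqv_push k _ _).ge
  · exact (OrderHomClass.mono k h2).trans (eqv_push k _ _).ge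

theorem hcv_emp : hcv (empN : Nm B) = ⊤ := by
  have h : Real (⊤ : B) (fun _ _ => ⊥) (fun _ => empN) := fun _ =>
    le_eqv (fun i => i.elim) (fun _ => inf_le_right.trans bot_le)
  exact top_le_iff.1 (h.hc 0)

/-- The value of a formula in `H(ω₁)`. -/
noncomputable def tv : Fml → (ℕ → Nm B) → B
  | .mem i j, τ => mem (τ i) (τ j)
  | .eq i j, τ => eqv (τ i) (τ j)
  | .neg φ, τ => (tv φ τ)ᶜ
  | .and φ ψ, τ => tv φ τ ⊓ tv ψ τ
  | .all i φ, τ => ⨅ x, (hcv x)ᶜ ⊔ tv φ (update τ i x)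

theorem tv_iff (φ : Fml) (τ : ℕ → Nm B) (U : Ult B) :
    U.P (tv φ τ) ↔ SatIn U.E (HC U.E) φ fun i => U.cl (τ i) := by
  induction φ generalizing τ U with
  | mem i j => exact Iff.rfl
  | eq i j => exact U.cl_eq.symm
  | neg φ ih => rw [tv, U.compl, ih, SatIn]
  | and φ ψ ih1 ih2 => rw [tv, U.inf, ih1, ih2, SatIn]
  | all i φ ih =>
    have : ∀ x, Rep (fun V : Ult B =>
        SatIn V.E (HC V.E) φ (update (fun n => V.cl (τ n)) i (V.cl x))) := fun x =>
      ⟨tv φ (update τ i x), fun V => by rw [ih, V.update_cl]⟩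
    rw [tv, SatIn]
    refine ⟨fun h a ha => ?_, fun h => ?_⟩
    · obtain ⟨x, rfl⟩ := U.cl_surj a
      have h1 := U.mono (iInf_le _ x) h
      rw [U.sup, U.compl, hcv_iff, ih] at h1
      rw [U.update_cl]
      exact h1.resolve_left fun h2 => h2 ha
    · refine inf_intro _ (fun V => ∀ a, HC V.E a →
        SatIn V.E (HC V.E) φ (update (fun n => V.cl (τ n)) i a)) (fun V x hV => ?_) U h
      rw [V.sup, V.compl, hcv_iff, ih, ← V.update_cl]
      exact or_iff_not_imp_left.2 fun h2 => hV _ (not_not.1 h2)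

theorem tv_congr (φ : Fml) {τ τ' : ℕ → Nm B} (h : ∀ i, b ≤ eqv (τ i) (τ' i)) :
    b ⊓ tv φ τ ≤ tv φ τ' := by
  refine Ult.le_of fun U hU => ?_
  rw [U.inf, tv_iff] at hU
  have e : (fun i => U.cl (τ' i)) = fun i => U.cl (τ i) :=
    funext fun i => (U.cl_eq.2 (U.mono (h i) hU.1)).symm
  rw [tv_iff, e]
  exact hU.2

/-- A block of existential quantifiers. -/
theorem exists_block {n : ℕ} {φ : Fml} (h : Sig (n + 1) φ) : ∃ (L : Set ℕ) (ψ : Fml), Sig n ψ ∧
    ∀ (B : Type) [CompleteBooleanAlgebra B] (τ : ℕ → Nm B), tv φ τ =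
      ⨆ (τ' : ℕ → Nm B) (_ : ∀ i ∉ L, τ' i = τ i), (⨅ i ∈ L, hcv (τ' i)) ⊓ (tv ψ τ')ᶜ := by
  generalize hN : n + 1 = N at h
  induction h with
  | zero _ => omega
  | @up n' φ h _ =>
    obtain rfl : n = n' := by omega
    refine ⟨∅, φ, h, fun B _ τ => ?_⟩
    rw [tv]
    refine le_antisymm (le_iSup₂_of_le τ (fun _ _ => rfl) (by simp)) (iSup₂_le fun τ' h' => ?_)
    obtain rfl : τ' = τ := funext fun i => h' i (Set.notMem_empty i)
    exact inf_le_right
  | @ex n' φ i _ ih =>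
    obtain ⟨L, ψ, h1, h2⟩ := ih hN
    refine ⟨insert i L, ψ, h1, fun B _ τ => ?_⟩
    simp only [tv, compl_iInf, compl_sup, compl_compl]
    refine le_antisymm (iSup_le fun x => ?_) (iSup₂_le fun τ' h' => ?_)
    · rw [h2, inf_iSup₂_eq]
      refine iSup₂_le fun τ' h' => le_iSup₂_of_le τ' (fun j hj => ?_) ?_
      · rw [Set.mem_insert_iff, not_or] at hj
        rw [h' j hj.2, update_of_ne hj.1]
      · refine le_inf (le_iInf₂ fun j hj => ?_) (inf_le_right.trans inf_le_right)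
        by_cases hL : j ∈ L
        · exact inf_le_right.trans (inf_le_left.trans (iInf₂_le j hL))
        · obtain rfl : j = i := hj.resolve_right hL
          rw [h' j hL, update_self]
          exact inf_le_left
    · refine le_iSup_of_le (τ' i) (le_inf (inf_le_left.trans (iInf₂_le i (Set.mem_insert i L))) ?_)
      rw [h2]
      refine le_iSup₂_of_le τ' (fun j hj => ?_) (inf_le_inf_right _
        (le_iInf₂ fun j hj => iInf₂_le j (Set.mem_insert_of_mem i hj)))
      by_cases hji : j = i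
      · rw [hji, update_self]
      · rw [update_of_ne hji]
        exact h' j fun h => h.elim hji hj

/-- The recursion for equality. -/
def bis (R : ℕ → ℕ → ℕ → B) (e : ℕ × ℕ → ℕ × ℕ → B) (u v : ℕ × ℕ) : B :=
  (⨅ j, (R u.1 j u.2)ᶜ ⊔ ⨆ k, R v.1 k v.2 ⊓ e (u.1, j) (v.1, k)) ⊓
    ⨅ k, (R v.1 k v.2)ᶜ ⊔ ⨆ j, R u.1 j u.2 ⊓ e (u.1, j) (v.1, k)

theorem codeb_congr {x x' y y' : Nm B} (h1 : b ≤ eqv x x') (h2 : b ≤ eqv y y') :
    b ⊓ eqv x y ≤ eqv x' y' := by
  refine le_trans (le_inf (le_trans (le_inf ?_ inf_le_right) (eqv_trans x' x y))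
    (inf_le_left.trans h2)) (eqv_trans x' y y')
  rw [eqv_symm x' x]
  exact inf_le_left.trans h1

theorem codeb_bis {R : ℕ → ℕ → ℕ → B} {e e' : ℕ × ℕ → ℕ × ℕ → B} {u v : ℕ × ℕ} {c : B}
    (h : ∀ j k, c ⊓ R u.1 j u.2 ⊓ e (u.1, j) (v.1, k) ≤ e' (u.1, j) (v.1, k)) :
    c ⊓ bis R e u v ≤ bis R e' u v := by
  refine le_inf (le_iInf fun j => le_compl_sup.2 ?_) (le_iInf fun k => le_compl_sup.2 ?_)
  · have h1 : bis R e u v ⊓ R u.1 j u.2 ≤ ⨆ k, R v.1 k v.2 ⊓ e (u.1, j) (v.1, k) :=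
      le_compl_sup.1 (inf_le_left.trans (iInf_le _ j))
    refine codeb_cover ((inf_le_inf_right _ inf_le_right).trans h1) fun k =>
      le_iSup_of_le k (le_inf (inf_le_right.trans inf_le_left) (le_trans ?_ (h j k)))
    exact inf_le_inf (inf_le_inf_right _ inf_le_left) inf_le_right
  · have h1 : bis R e u v ⊓ R v.1 k v.2 ≤ ⨆ j, R u.1 j u.2 ⊓ e (u.1, j) (v.1, k) :=
      le_compl_sup.1 (inf_le_right.trans (iInf_le _ k))
    refine codeb_cover ((inf_le_inf_right _ inf_le_right).trans h1) fun j =>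
      le_iSup_of_le j (le_inf (inf_le_right.trans inf_le_left) (le_trans ?_ (h j k)))
    exact le_inf (le_inf (inf_le_left.trans (inf_le_left.trans inf_le_left))
      (inf_le_right.trans inf_le_left)) (inf_le_right.trans inf_le_right)

theorem codeb_eq {x y : B} (h1 : b ⊓ x ≤ y) (h2 : b ⊓ y ≤ x) : b ⊓ x = b ⊓ y :=
  le_antisymm (le_inf inf_le_left h1) (le_inf inf_le_left h2)

theorem codeb_le {c x y : B} (h : b ⊓ x = b ⊓ y) (hc : c ≤ b) (hx : c ≤ x) : c ≤ y :=
  (le_inf hc hx).trans (h.le.trans inf_le_right)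

theorem bis_eqv {R : ℕ → ℕ → ℕ → B} {m : ℕ → ℕ → Nm B} (h : ∀ n, Real b (R n) (m n))
    (u v : ℕ × ℕ) : b ⊓ eqv (m u.1 u.2) (m v.1 v.2) =
      b ⊓ bis R (fun u v => eqv (m u.1 u.2) (m v.1 v.2)) u v := by
  have e : bis R (fun u v => eqv (m u.1 u.2) (m v.1 v.2)) u v =
      eqv ⟨ℕ, m u.1, fun j => R u.1 j u.2⟩ ⟨ℕ, m v.1, fun j => R v.1 j v.2⟩ := by
    rw [eqv, bis]
  rw [e]
  refine codeb_eq (codeb_congr (h _ _) (h _ _)) (codeb_congr ?_ ?_) <;>
  · rw [eqv_symm]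
    exact h _ _

theorem bis_unique {R : ℕ → ℕ → ℕ → B} {m : ℕ → ℕ → Nm B} (h : ∀ n, Real b (R n) (m n))
    {e : ℕ × ℕ → ℕ × ℕ → B} (he : ∀ u v, b ⊓ e u v = b ⊓ bis R e u v) (u v : ℕ × ℕ) :
    b ⊓ e u v = b ⊓ eqv (m u.1 u.2) (m v.1 v.2) := by
  have key : ∀ x : Nm B, ∀ u v : ℕ × ℕ, b ⊓ eqv x (m u.1 u.2) ⊓ e u v =
      b ⊓ eqv x (m u.1 u.2) ⊓ eqv (m u.1 u.2) (m v.1 v.2) := by
    intro x
    induction x with
    | mk ι A a ih =>
      intro u v
      refine codeb_eq ?_ ?_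
      · refine codeb_le (bis_eqv h u v).symm (inf_le_left.trans inf_le_left) ?_
        refine le_trans (le_inf inf_le_left (codeb_le (he u v) (inf_le_left.trans inf_le_left)
          inf_le_right)) (codeb_bis fun j k => ?_)
        refine codeb_cover (inf_le_left.trans (codeb_mem (h u.1) ⟨ι, A, a⟩ j u.2)) fun i => ?_
        exact codeb_le (ih i (u.1, j) (v.1, k)) inf_le_right (inf_le_left.trans inf_le_right)
      · refine codeb_le (he u v).symm (inf_le_left.trans inf_le_left) ?_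
        refine le_trans (le_inf inf_le_left (codeb_le (bis_eqv h u v)
          (inf_le_left.trans inf_le_left) inf_le_right)) (codeb_bis fun j k => ?_)
        refine codeb_cover (inf_le_left.trans (codeb_mem (h u.1) ⟨ι, A, a⟩ j u.2)) fun i => ?_
        exact codeb_le (ih i (u.1, j) (v.1, k)).symm inf_le_right (inf_le_left.trans inf_le_right)
  have := key (m u.1 u.2) u v
  rwa [eqv_refl, inf_top_eq] at this

/-- Truth of bounded formulas. -/
theorem exists_nf (ρ : ℕ → ℕ → ℕ → NF) {θ : Fml} (h : Delta0 θ) (σ : ℕ → ℕ × ℕ) :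
    ∃ Θ : NF, ∀ (B : Type) [CompleteBooleanAlgebra B] (z : ℕ → B) (w : WV → B) (b : B)
      (m : ℕ → ℕ → Nm B), (∀ n, Real b (fun j k => (ρ n j k).ev z w) (m n)) →
      (∀ u v, b ⊓ w (.eq u v) = b ⊓ eqv (m u.1 u.2) (m v.1 v.2)) →
      b ⊓ Θ.ev z w = b ⊓ tv θ fun i => m (σ i).1 (σ i).2 := by
  induction h generalizing σ with
  | mem i j =>
    refine ⟨.ex fun k => (ρ (σ j).1 k (σ j).2).and (.wl (.eq (σ i) ((σ j).1, k)) true),
      fun B _ z w b m hm hw => ?_⟩
    simp only [NF.ev_ex, NF.ev_and, NF.ev_wl, tv]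
    refine codeb_eq ?_ ?_
    · rw [inf_iSup_eq]
      refine iSup_le fun k => le_trans (le_inf ?_ ?_)
        (mem_congr_left (m (σ j).1 k) (m (σ i).1 (σ i).2) _)
      · rw [eqv_symm]
        exact codeb_le (hw (σ i) ((σ j).1, k)) inf_le_left (inf_le_right.trans inf_le_right)
      · exact (inf_le_inf_left _ inf_le_left).trans ((hm (σ j).1).intro k (σ j).2)
    · refine codeb_cover ((hm (σ j).1).elim _ (σ j).2) fun k => le_iSup_of_le k
        (le_inf (inf_le_right.trans inf_le_left) ?_)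
      exact codeb_le (hw (σ i) ((σ j).1, k)).symm (inf_le_left.trans inf_le_left)
        (inf_le_right.trans inf_le_right)
  | eq i j => exact ⟨.wl (.eq (σ i) (σ j)) true, fun B _ z w b m _ hw => hw (σ i) (σ j)⟩
  | neg _ ih =>
    obtain ⟨Θ, hΘ⟩ := ih σ
    refine ⟨Θ.neg, fun B _ z w b m hm hw => ?_⟩
    have h1 := hΘ B z w b m hm hw
    rw [NF.ev_neg, tv, ← sdiff_eq, ← sdiff_eq, ← sdiff_inf_self_left, h1, sdiff_inf_self_left]
  | and _ _ ih1 ih2 =>
    obtain ⟨Θ, hΘ⟩ := ih1 σ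
    obtain ⟨Ψ, hΨ⟩ := ih2 σ
    refine ⟨Θ.and Ψ, fun B _ z w b m hm hw => ?_⟩
    rw [NF.ev_and, tv, inf_inf_distrib_left, hΘ B z w b m hm hw, hΨ B z w b m hm hw,
      ← inf_inf_distrib_left]
  | @ball φ i j hij _ ih =>
    choose Θ hΘ using fun k => ih (update σ i ((σ j).1, k))
    refine ⟨.all fun k => (ρ (σ j).1 k (σ j).2).neg.or (Θ k), fun B _ z w b m hm hw => ?_⟩
    have h1 : ∀ k, b ⊓ (Θ k).ev z w =
        b ⊓ tv φ (update (fun n => m (σ n).1 (σ n).2) i (m (σ j).1 k)) := by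
      intro k
      rw [hΘ k B z w b m hm hw]
      congr 2
      funext n
      by_cases hn : n = i
      · subst hn
        simp
      · simp [update_of_ne hn]
    simp only [NF.ev_all, NF.ev_or, NF.ev_neg, tv, update_self, update_of_ne hij.symm,
      compl_inf, compl_compl]
    refine codeb_eq (le_iInf fun x => le_sup_of_le_right (le_compl_sup.2 ?_))
      (le_iInf fun k => le_compl_sup.2 ?_)
    · refine codeb_cover ((inf_le_inf_right _ inf_le_left).trans ((hm (σ j).1).elim x (σ j).2))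
        fun k => ?_
      refine le_trans (le_inf (inf_le_right.trans inf_le_right) (codeb_le (h1 k)
        (inf_le_left.trans (inf_le_left.trans inf_le_left)) ?_)) (tv_congr φ fun n => ?_)
      · refine le_trans (le_inf (inf_le_left.trans (inf_le_left.trans inf_le_right))
          (inf_le_right.trans inf_le_left)) (le_compl_sup.1 (iInf_le _ k))
      · by_cases hn : n = i
        · subst hn
          rw [update_self, update_self, eqv_symm]
        · rw [update_of_ne hn, update_of_ne hn, eqv_refl]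
          exact le_top
    · refine codeb_le (h1 k).symm (inf_le_left.trans inf_le_left) ?_
      refine le_trans (le_inf (le_inf (inf_le_left.trans inf_le_right) ?_) ?_)
        (le_compl_sup.1 (le_compl_sup.1 (iInf_le _ (m (σ j).1 k))))
      · exact inf_le_left.trans (inf_le_left.trans ((hm (σ j).1).hc k))
      · exact (inf_le_inf_right _ inf_le_left).trans ((hm (σ j).1).intro k (σ j).2)

end Pool.Agent.MP_fd3eaf_lc.Up
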