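import Pool.Agent.MP_fd3eaf_lc.Up.Tree

/-!
Infinitary formulas about two reals, well-foundedness, and the translation to trees.
-/

set_option autoImplicit false

namespace Pool.Agent.MP_fd3eaf_lc.Up

open Function

variable {B : Type} [CompleteBooleanAlgebra B]

/-- The value of: `k` has rank at most `α`. -/
def rkv (R : ℕ → ℕ → B) (α : On) (k : ℕ) : B :=
  ⨅ j, (R j k)ᶜ ⊔ ⨆ β : Set.Iio α, rkv R β.1 j
termination_by α
decreasing_by exact β.2

/-- The value of: `R` is well-founded. -/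
def wfv (R : ℕ → ℕ → B) : B := ⨅ k, ⨆ α, rkv R α k

theorem le_rkv {R : ℕ → ℕ → B} {α : On} {k : ℕ} {b : B} :
    b ≤ rkv R α k ↔ ∀ j, b ⊓ R j k ≤ ⨆ β < α, rkv R β j := by
  rw [rkv, le_iInf_iff]
  refine forall_congr' fun j => ?_
  rw [sup_comm, ← himp_eq, le_himp_iff, iSup_subtype]
  rfl

theorem rkv_elim (R : ℕ → ℕ → B) (α : On) (j k : ℕ) :
    rkv R α k ⊓ R j k ≤ ⨆ β < α, rkv R β j := le_rkv.1 le_rfl j

theorem rkv_mono (R : ℕ → ℕ → B) {α β : On} (h : α ≤ β) (k : ℕ) : rkv R α k ≤ rkv R β k :=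
  le_rkv.2 fun j => (rkv_elim R α j k).trans (biSup_mono fun _ h' => h'.trans_le h)

theorem exists_stab (R : ℕ → ℕ → B) : ∃ γ : On, ∀ α k, rkv R α k ≤ ⨆ β < γ, rkv R β k := by
  have h : ∀ b : {b : ℕ × B // ∃ α, rkv R α b.1 = b.2}, ∃ α, rkv R α b.1.1 = b.1.2 := fun b => b.2
  choose g hg using h
  refine ⟨⨆ b, g b + 1, fun α k => le_iSup₂_of_le (g ⟨(k, _), α, rfl⟩)
    (Ordinal.lt_iSup_add_one g _) (hg ⟨(k, _), α, rfl⟩).ge⟩

/-- A subrelation of the preimage of a well-founded relation. -/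
theorem wfv_sub {R E : ℕ → ℕ → B} {b : B} (g : ℕ → ℕ) (h : ∀ j k, b ⊓ R j k ≤ E (g j) (g k)) :
    b ⊓ wfv E ≤ wfv R := by
  have key : ∀ (α : On) k, b ⊓ rkv E α (g k) ≤ rkv R α k := by
    intro α
    induction α using WellFoundedLT.induction with
    | _ α ih =>
      intro k
      refine le_rkv.2 fun j => ?_
      have h1 : b ⊓ rkv E α (g k) ⊓ R j k ≤ b ⊓ ⨆ β < α, rkv E β (g j) :=
        le_inf (inf_le_left.trans inf_le_left) (le_trans (le_inf (inf_le_left.trans inf_le_right)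
          ((inf_le_inf_right _ inf_le_left).trans (h j k))) (rkv_elim E α (g j) (g k)))
      refine h1.trans ?_
      rw [inf_iSup₂_eq]
      exact iSup₂_mono fun β hβ => ih β hβ j
  refine le_iInf fun k => (inf_le_inf_left _ (iInf_le _ (g k))).trans ?_
  rw [inf_iSup_eq]
  exact iSup_mono fun α => key α k

/-- The disjoint union of the well-founded members of a family. -/
theorem exists_union_wf (F : ℕ → ℕ → ℕ → B) : ∃ E : ℕ → ℕ → B, wfv E = ⊤ ∧
    ∀ n j k, wfv (F n) ⊓ F n j k ≤ E (Nat.pair n j) (Nat.pair n k) := by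
  obtain ⟨E, hE⟩ : ∃ E : ℕ → ℕ → B, E = fun a c => if a.unpair.1 = c.unpair.1 then
    wfv (F a.unpair.1) ⊓ F a.unpair.1 a.unpair.2 c.unpair.2 else ⊥ := ⟨_, rfl⟩
  have h1 : ∀ a c, E a c ≤ wfv (F c.unpair.1) := by
    intro a c
    rw [hE]
    beta_reduce
    split_ifs with h
    · rw [h]; exact inf_le_left
    · exact bot_le
  have key : ∀ (α : On) c, rkv (F c.unpair.1) α c.unpair.2 ≤ rkv E α c := by
    intro α
    induction α using WellFoundedLT.induction with
    | _ α ih =>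
      intro c
      refine le_rkv.2 fun a => ?_
      by_cases h : a.unpair.1 = c.unpair.1
      · have h2 : E a c ≤ F c.unpair.1 a.unpair.2 c.unpair.2 := by
          rw [hE]
          simp only [h, if_true]
          exact inf_le_right
        refine (inf_le_inf_left _ h2).trans ((rkv_elim _ α _ _).trans ?_)
        exact iSup₂_mono fun β hβ => h ▸ ih β hβ a
      · have h2 : E a c = ⊥ := by
          rw [hE]
          simp only [h, if_false]
        rw [h2, inf_bot_eq]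
        exact bot_le
  refine ⟨E, top_le_iff.1 (le_iInf fun c => ?_), fun n j k => by simp [hE]⟩
  rw [← sup_compl_eq_top (x := wfv (F c.unpair.1))]
  refine sup_le ((iInf_le _ c.unpair.2).trans (iSup_mono fun α => key α c))
    (le_iSup_of_le 0 (le_rkv.2 fun a => ?_))
  exact (inf_le_inf_left _ (h1 a c)).trans (compl_inf_eq_bot.le.trans bot_le)

/-- The value of: `Z` is a nonempty set without minimal element. -/
def illv (R : ℕ → ℕ → B) (Z : ℕ → B) : B := (⨆ k, Z k) ⊓ ⨅ k, (Z k)ᶜ ⊔ ⨆ j, R j k ⊓ Z j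

theorem illv_le (R : ℕ → ℕ → B) (Z : ℕ → B) : illv R Z ≤ (wfv R)ᶜ := by
  have key : ∀ (α : On) k, illv R Z ⊓ Z k ⊓ rkv R α k ≤ ⊥ := by
    intro α
    induction α using WellFoundedLT.induction with
    | _ α ih =>
      intro k
      have h1 : illv R Z ⊓ Z k ≤ ⨆ j, R j k ⊓ Z j := by
        rw [← le_himp_iff, himp_eq, sup_comm]
        exact inf_le_right.trans (iInf_le _ k)
      have h2 : illv R Z ⊓ Z k ⊓ rkv R α k ≤ (illv R Z ⊓ rkv R α k) ⊓ ⨆ j, R j k ⊓ Z j :=
        le_inf (inf_le_inf_right _ inf_le_left) (inf_le_left.trans h1)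
      refine h2.trans ?_
      rw [inf_iSup_eq]
      refine iSup_le fun j => ?_
      have h3 : illv R Z ⊓ rkv R α k ⊓ (R j k ⊓ Z j) ≤ (illv R Z ⊓ Z j) ⊓ ⨆ β < α, rkv R β j :=
        le_inf (inf_le_inf inf_le_left inf_le_right)
          ((inf_le_inf inf_le_right inf_le_left).trans (rkv_elim R α j k))
      refine h3.trans ?_
      rw [inf_iSup₂_eq]
      exact iSup₂_le fun β hβ => ih β hβ j
  rw [le_compl_iff_disjoint_right, disjoint_iff_inf_le]
  have h1 : illv R Z ⊓ wfv R ≤ (illv R Z ⊓ wfv R) ⊓ ⨆ k, Z k :=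
    le_inf le_rfl (inf_le_left.trans inf_le_left)
  refine h1.trans ?_
  rw [inf_iSup_eq]
  refine iSup_le fun k => ?_
  have h2 : illv R Z ⊓ wfv R ⊓ Z k ≤ (illv R Z ⊓ Z k) ⊓ ⨆ α, rkv R α k :=
    le_inf (inf_le_inf_right _ inf_le_left) (inf_le_left.trans (inf_le_right.trans (iInf_le _ k)))
  refine h2.trans ?_
  rw [inf_iSup_eq]
  exact iSup_le fun α => key α k

theorem exists_ill (R : ℕ → ℕ → B) : ∃ Z, (wfv R)ᶜ ≤ illv R Z := by
  obtain ⟨γ, hγ⟩ := exists_stab R
  refine ⟨fun k => (⨆ α, rkv R α k)ᶜ, le_inf (by rw [wfv, compl_iInf]) ?_⟩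
  refine le_top.trans (le_iInf fun k => ?_)
  rw [compl_compl, ← sup_compl_eq_top (x := ⨆ j, R j k ⊓ (⨆ α, rkv R α j)ᶜ), sup_comm]
  refine sup_le_sup_right (le_iSup_of_le γ (le_rkv.2 fun j => ?_)) _
  refine le_trans ?_ (iSup_le fun α => hγ α j)
  rw [← disjoint_compl_right_iff, disjoint_iff_inf_le, inf_assoc]
  exact (inf_le_inf_left _ (le_iSup (fun j => R j k ⊓ (⨆ α, rkv R α j)ᶜ) j)).trans
    compl_inf_eq_bot.le

/-- The variables of the witness. -/
inductive WV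
  | edge (a b : ℕ)
  | ch (n j k : ℕ)
  | eq (u v : ℕ × ℕ)
  | z (n j : ℕ)

/-- Infinitary formulas in negation normal form. -/
inductive NF
  | zl (v : ℕ) (s : Bool)
  | wl (v : WV) (s : Bool)
  | all (f : ℕ → NF)
  | ex (f : ℕ → NF)

namespace NF

def ev (z : ℕ → B) (w : WV → B) : NF → B
  | zl v s => lit (z v) s
  | wl v s => lit (w v) s
  | all f => ⨅ n, ev z w (f n)
  | ex f => ⨆ n, ev z w (f n)

def neg : NF → NF
  | zl v s => zl v (!s)
  | wl v s => wl v (!s)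
  | all f => ex fun n => neg (f n)
  | ex f => all fun n => neg (f n)

def and (Φ Ψ : NF) : NF := all fun n => if n = 0 then Φ else Ψ

def or (Φ Ψ : NF) : NF := ex fun n => if n = 0 then Φ else Ψ

def top : NF := or (zl 0 true) (zl 0 false)

open Classical in
/-- `Φ` if `p` holds. -/
noncomputable def guard (p : Prop) (Φ : NF) : NF := if p then Φ else top

variable (z : ℕ → B) (w : WV → B)

@[simp] theorem ev_zl (v : ℕ) : ev z w (zl v true) = z v := rfl

@[simp] theorem ev_wl (v : WV) : ev z w (wl v true) = w v := rfl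

@[simp] theorem ev_all (f : ℕ → NF) : ev z w (all f) = ⨅ n, ev z w (f n) := rfl

@[simp] theorem ev_ex (f : ℕ → NF) : ev z w (ex f) = ⨆ n, ev z w (f n) := rfl

@[simp] theorem ev_neg (Φ : NF) : ev z w Φ.neg = (ev z w Φ)ᶜ := by
  induction Φ with
  | zl v s => cases s <;> simp [neg, ev, lit]
  | wl v s => cases s <;> simp [neg, ev, lit]
  | all f ih => simp [neg, ih, compl_iInf]
  | ex f ih => simp [neg, ih, compl_iSup]

@[simp] theorem ev_and (Φ Ψ : NF) : ev z w (Φ.and Ψ) = ev z w Φ ⊓ ev z w Ψ := by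
  refine le_antisymm (le_inf (iInf_le_of_le 0 (by simp)) (iInf_le_of_le 1 (by simp)))
    (le_iInf fun n => ?_)
  beta_reduce
  split_ifs
  exacts [inf_le_left, inf_le_right]

@[simp] theorem ev_or (Φ Ψ : NF) : ev z w (Φ.or Ψ) = ev z w Φ ⊔ ev z w Ψ := by
  refine le_antisymm (iSup_le fun n => ?_)
    (sup_le (le_iSup_of_le 0 (by simp)) (le_iSup_of_le 1 (by simp)))
  beta_reduce
  split_ifs
  exacts [le_sup_left, le_sup_right]

@[simp] theorem ev_guard (p : Prop) (Φ : NF) : ev z w (guard p Φ) = ⨅ _ : p, ev z w Φ := by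
  by_cases h : p <;> simp [guard, h, top, ev, lit]

end NF

/-- The value of: some witness with a well-founded edge relation satisfies `Φ`. -/
def SemS (Φ : NF) (z : ℕ → B) : B := ⨆ w : WV → B, Φ.ev z w ⊓ wfv fun a b => w (.edge a b)

/-- The literals that a partial strategy reaches. -/
def sch_reach : NF → (List ℕ → ℕ → Prop) → Set ((ℕ × Bool) ⊕ (WV × Bool))
  | .zl v s, _ => {.inl (v, s)}
  | .wl v s, _ => {.inr (v, s)}
  | .all f, σ => {a | ∃ n, a ∈ sch_reach (f n) fun q => σ (n :: q)}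
  | .ex f, σ => {a | ∃ n, σ [] n ∧ a ∈ sch_reach (f n) fun q => σ (n :: q)}

theorem sch_reach_mono (Φ : NF) {σ τ : List ℕ → ℕ → Prop} (h : ∀ q n, σ q n → τ q n) :
    sch_reach Φ σ ⊆ sch_reach Φ τ := by
  induction Φ generalizing σ τ with
  | zl v s => exact subset_rfl
  | wl v s => exact subset_rfl
  | all f ih => exact fun a ⟨n, ha⟩ => ⟨n, ih n (fun q => h (n :: q)) ha⟩
  | ex f ih => exact fun a ⟨n, hn, ha⟩ => ⟨n, h _ _ hn, ih n (fun q => h (n :: q)) ha⟩

/-- The partial strategy of a node. -/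
def sch_str (d : ℕ → List ℕ) (l q : List ℕ) (n : ℕ) : Prop :=
  ∃ l', (n :: l') <:+ l ∧ d l'.length = q

theorem sch_str_mono (d : ℕ → List ℕ) {l l' : List ℕ} (h : l <:+ l') (q : List ℕ) (n : ℕ) :
    sch_str d l q n → sch_str d l' q n := fun ⟨s, h1, h2⟩ => ⟨s, h1.trans h, h2⟩

theorem sch_str_ex (d : ℕ → List ℕ) {l : List ℕ} {i : ℕ} (h : i < l.length) :
    ∃ n, sch_str d l (d i) n := by
  induction l with
  | nil => simp at h
  | cons k l ih =>
    rcases Nat.lt_succ_iff_lt_or_eq.1 h with h | h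
    · obtain ⟨n, hn⟩ := ih h
      exact ⟨n, sch_str_mono d (List.suffix_cons k l) _ _ hn⟩
    · exact ⟨k, l, List.suffix_rfl, by rw [h]⟩

/-- The tree of a formula. -/
def sch_tree (d : ℕ → List ℕ) (Φ : NF) : Sch where
  lits l := {a | .inl a ∈ sch_reach Φ (sch_str d l) ∨ ∃ v, .inr (v, true) ∈ sch_reach Φ (sch_str d l) ∧
    .inr (v, false) ∈ sch_reach Φ (sch_str d l)}
  edge l i j := .inr (.edge i j, true) ∈ sch_reach Φ (sch_str d l)

theorem sch_cover {ι : Sort*} {b c : B} {f : ι → B} (h : b ≤ ⨆ i, f i) (h2 : ∀ i, b ⊓ f i ≤ c) :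
    b ≤ c := by
  rw [← inf_eq_left.2 h, inf_iSup_eq]
  exact iSup_le h2

theorem sch_bot {b x c : B} (h : b ≤ x) (h' : b ≤ xᶜ) : b ≤ c :=
  (le_inf h h').trans (by rw [inf_compl_eq_bot]; exact bot_le)

theorem sch_strategy (z : ℕ → B) (w : WV → B) (Φ : NF) : ∃ G : List ℕ → ℕ → B,
    (∀ q, ⊤ ≤ ⨆ n, G q n) ∧ ∀ σ, ∀ a ∈ sch_reach Φ σ, ∀ b ≤ Φ.ev z w,
      (∀ q n, σ q n → b ≤ G q n) →
      b ≤ Sum.elim (fun a => lit (z a.1) a.2) (fun a => lit (w a.1) a.2) a := by
  induction Φ with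
  | zl v s =>
    refine ⟨fun _ _ => ⊤, fun q => le_iSup_of_le 0 le_rfl, ?_⟩
    rintro σ a rfl b hb -
    exact hb
  | wl v s =>
    refine ⟨fun _ _ => ⊤, fun q => le_iSup_of_le 0 le_rfl, ?_⟩
    rintro σ a rfl b hb -
    exact hb
  | all f ih =>
    choose G h1 h2 using ih
    refine ⟨fun q => List.casesOn q (fun _ => ⊤) fun n q => G n q, fun q => ?_, ?_⟩
    · cases q with
      | nil => exact le_iSup_of_le 0 le_rfl
      | cons n q => exact h1 n q
    · rintro σ a ⟨n, ha⟩ b hb hσ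
      exact h2 n _ a ha b (hb.trans (iInf_le _ n)) fun q => hσ (n :: q)
  | ex f ih =>
    choose G h1 h2 using ih
    refine ⟨fun q => List.casesOn q (fun n => (⨆ n, (f n).ev z w)ᶜ ⊔ (f n).ev z w)
      fun n q => G n q, fun q => ?_, ?_⟩
    · cases q with
      | nil =>
        rw [← compl_sup_eq_top (x := ⨆ n, (f n).ev z w)]
        exact sup_le (le_iSup_of_le 0 le_sup_left) (iSup_mono fun n => le_sup_right)
      | cons n q => exact h1 n q
    · rintro σ a ⟨n, hn, ha⟩ b hb hσ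
      refine h2 n _ a ha b ?_ fun q => hσ (n :: q)
      have h3 : b ≤ (⨆ n, (f n).ev z w)ᶜ ⊔ (f n).ev z w := hσ [] n hn
      have h4 : b ≤ ⨆ n, (f n).ev z w := hb
      refine (le_inf h4 h3).trans ?_
      rw [inf_sup_left, inf_compl_eq_bot, bot_sup_eq]
      exact inf_le_right

theorem sch_exact (E : ℕ → ℕ → B) (γ : On) (i : ℕ) (β : On) (hβ : β < γ) :
    rkv E β i ≤ ⨆ α < γ, rkv E α i ⊓ (⨆ δ < α, rkv E δ i)ᶜ := by
  induction β using WellFoundedLT.induction with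
  | ind β ih =>
    rw [← inf_top_eq (rkv E β i), ← compl_sup_eq_top (x := ⨆ δ < β, rkv E δ i), inf_sup_left]
    exact sup_le (le_iSup₂_of_le β hβ le_rfl)
      (inf_le_right.trans (iSup₂_le fun δ hδ => ih δ hδ (hδ.trans hβ)))

theorem sch_ge (d : ℕ → List ℕ) (Φ : NF) (z : ℕ → B) (w : WV → B) :
    (Φ.ev z w ⊓ wfv fun a b => w (.edge a b)) ≤ SV (sch_tree d Φ) z := by
  obtain ⟨G, hG, hv⟩ := sch_strategy z w Φ
  obtain ⟨E, hE⟩ : ∃ E : ℕ → ℕ → B, E = fun a b => w (.edge a b) := ⟨_, rfl⟩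
  rw [← hE]
  obtain ⟨γ, hγ⟩ := exists_stab E
  obtain ⟨W, hW⟩ : ∃ W : List ℕ → (ℕ → On) → B, ∀ l ρ b, b ≤ W l ρ ↔ b ≤ Φ.ev z w ∧ b ≤ wfv E ∧
      (∀ i < l.length, b ≤ rkv E (ρ i) i ⊓ (⨆ δ < ρ i, rkv E δ i)ᶜ) ∧
      ∀ q n, sch_str d l q n → b ≤ G q n :=
    ⟨fun l ρ => Φ.ev z w ⊓ (wfv E ⊓ ((⨅ i < l.length, rkv E (ρ i) i ⊓ (⨆ δ < ρ i, rkv E δ i)ᶜ) ⊓
      ⨅ (q) (n) (_ : sch_str d l q n), G q n)), fun l ρ b => by
        rw [le_inf_iff, le_inf_iff, le_inf_iff, le_iInf₂_iff]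
        simp only [le_iInf_iff]⟩
  have hP : Post (sch_tree d Φ) z γ W := by
    refine ⟨fun l ρ => ?_, fun l ρ hne i hi j hj he => ?_, fun l ρ => ?_⟩
    · obtain ⟨h1, -, -, h4⟩ := (hW l ρ _).1 le_rfl
      refine le_iInf₂ fun a ha => ?_
      rcases ha with ha | ⟨v, ha, ha'⟩
      · exact hv _ _ ha _ h1 h4
      · exact sch_bot (x := w v) (hv _ _ ha _ h1 h4) (hv _ _ ha' _ h1 h4)
    · obtain ⟨h1, -, h3, h4⟩ := (hW l ρ _).1 le_rfl
      have h5 : W l ρ ≤ E i j := hE ▸ hv _ _ he _ h1 h4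
      have h6 := (le_inf ((h3 j hj).trans inf_le_left) h5).trans (rkv_elim E (ρ j) i j)
      by_contra hlt
      exact hne (le_bot_iff.1 (sch_bot (h6.trans (biSup_mono fun δ hδ =>
        hδ.trans_le (not_lt.1 hlt))) ((h3 i hi).trans inf_le_right)))
    · obtain ⟨h1, h2, h3, h4⟩ := (hW l ρ _).1 le_rfl
      have h5 : W l ρ ≤ ⨆ α < γ, rkv E α l.length ⊓ (⨆ δ < α, rkv E δ l.length)ᶜ :=
        h2.trans ((iInf_le _ l.length).trans (iSup_le fun α => (hγ α _).trans
          (iSup₂_le fun β hβ => sch_exact E γ _ β hβ)))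
      refine sch_cover (le_top.trans (hG (d l.length))) fun k => ?_
      refine sch_cover (inf_le_left.trans h5) fun α => ?_
      refine sch_cover inf_le_right fun hα => ?_
      refine le_iSup₂_of_le k α (le_iSup_of_le hα ((hW _ _ _).2 ?_))
      have h0 : ∀ x y : B, W l ρ ⊓ G (d l.length) k ⊓ x ⊓ y ≤ W l ρ ⊓ G (d l.length) k :=
        fun x y => inf_le_left.trans inf_le_left
      have h6 := (h0 (⨆ _ : α < γ, rkv E α l.length ⊓ (⨆ δ < α, rkv E δ l.length)ᶜ)
        (rkv E α l.length ⊓ (⨆ δ < α, rkv E δ l.length)ᶜ))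
      refine ⟨(h6.trans inf_le_left).trans h1, (h6.trans inf_le_left).trans h2, fun i hi => ?_, ?_⟩
      · rcases Nat.lt_succ_iff_lt_or_eq.1 hi with hi | rfl
        · rw [update_of_ne hi.ne]
          exact (h6.trans inf_le_left).trans (h3 i hi)
        · rw [update_self]
          exact inf_le_right
      · rintro q n ⟨l', hl, rfl⟩
        rcases List.suffix_cons_iff.1 hl with hl | hl
        · obtain ⟨rfl, rfl⟩ := List.cons.inj hl
          exact h6.trans inf_le_right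
        · exact (h6.trans inf_le_left).trans (h4 _ _ ⟨l', hl, rfl⟩)
  refine le_trans ((hW _ _ _).2 ⟨inf_le_left, inf_le_right, fun i hi => by simp at hi, ?_⟩) hP.le_SV
  rintro q n ⟨l', hl, -⟩
  simp at hl

/-- The ordinals chosen along a history. -/
noncomputable def sch_rho {X : Type} (o : X → On) : List (ℕ × X) → ℕ → On
  | [] => 0
  | t :: h => update (sch_rho o h) h.length (o t.2)

theorem sch_rho_stab {X : Type} (o : X → On) {h h' : List (ℕ × X)} (hh : h <:+ h') {i : ℕ}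
    (hi : i < h.length) : sch_rho o h' i = sch_rho o h i := by
  obtain ⟨s, rfl⟩ := hh
  induction s with
  | nil => rfl
  | cons t s ih =>
    rw [List.cons_append, sch_rho, update_of_ne, ih]
    rw [List.length_append]
    omega

theorem sch_le {d : ℕ → List ℕ} (hd : Surjective d) (Φ : NF) (z : ℕ → B) {γ : On}
    {W : List ℕ → (ℕ → On) → B} (hP : Post (sch_tree d Φ) z γ W) : W [] 0 ≤ SemS Φ z := by
  obtain ⟨X, o, ho⟩ : ∃ (X : Type) (o : X → On), ∀ α < γ, ∃ x, o x = α :=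
    ⟨Shrink.{0} (Set.Iio γ), fun x => ((equivShrink _).symm x).1, fun α hα =>
      ⟨equivShrink _ ⟨α, hα⟩, by simp⟩⟩
  obtain ⟨e, e0, e1, e2, e3, e4⟩ := exists_tree
    (fun h : List (ℕ × X) => W (h.map Prod.fst) (sch_rho o h)) fun h =>
      (hP.step _ _).trans (iSup₂_le fun k α => iSup_le fun hα => by
        obtain ⟨x, rfl⟩ := ho α hα
        refine le_iSup_of_le (k, x) (le_of_eq ?_)
        rw [List.length_map]
        rfl)
  obtain ⟨A, hA⟩ : ∃ A : List (ℕ × X) → Set ((ℕ × Bool) ⊕ (WV × Bool)),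
      ∀ h, A h = sch_reach Φ (sch_str d (h.map Prod.fst)) := ⟨_, fun _ => rfl⟩
  have hs : ∀ {h h' : List (ℕ × X)}, h <:+ h' → ∀ q n, sch_str d (h.map Prod.fst) q n →
      sch_str d (h'.map Prod.fst) q n := fun hh => sch_str_mono d (hh.map _)
  have hm : ∀ {h h' : List (ℕ × X)}, h <:+ h' → A h ⊆ A h' := fun hh => by
    rw [hA, hA]
    exact sch_reach_mono Φ (hs hh)
  have hc : ∀ (h h' : List (ℕ × X)) (c : B), (∀ s, h <:+ s → h' <:+ s → e s ≤ c) →
      e h ⊓ e h' ≤ c := fun h h' c hc => by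
    by_cases hb : e h ⊓ e h' = ⊥
    · exact hb.le.trans bot_le
    rcases e4 h h' hb with hh | hh
    · exact inf_le_right.trans (hc _ hh List.suffix_rfl)
    · exact inf_le_left.trans (hc _ List.suffix_rfl hh)
  have hu : ∀ (h : List (ℕ × X)) (i : ℕ) (c : B), (∀ s, h <:+ s → i < s.length → e s ≤ c) →
      e h ≤ c := fun h i c hc =>
    (tree_up e3 h (i + 1)).trans (iSup₂_le fun s hs => hc _ (List.suffix_append _ _) (by
      rw [List.length_append]
      omega))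
  have hl : ∀ h, ∀ a ∈ (sch_tree d Φ).lits (h.map Prod.fst), e h ≤ lit (z a.1) a.2 :=
    fun h a ha => (e1 h).trans ((hP.le _ _).trans (iInf₂_le a ha))
  obtain ⟨w, hw⟩ : ∃ w : WV → B, ∀ v, w v = ⨆ (h) (_ : .inr (v, true) ∈ A h), e h :=
    ⟨_, fun _ => rfl⟩
  have key : ∀ (Ψ : NF) (g : List ℕ → List ℕ) (h : List (ℕ × X)),
      (∀ h', h <:+ h' → (sch_reach Ψ fun q => sch_str d (h'.map Prod.fst) (g q)) ⊆ A h') →
      e h ≤ Ψ.ev z w := by
    intro Ψ
    induction Ψ with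
    | zl v s =>
      intro g h H
      exact hl h (v, s) (Or.inl (hA h ▸ H h List.suffix_rfl rfl))
    | wl v s =>
      intro g h H
      have h1 : .inr (v, s) ∈ A h := H h List.suffix_rfl rfl
      cases s with
      | true => exact (hw v).ge.trans' (le_iSup₂_of_le h h1 le_rfl)
      | false =>
        refine le_compl_iff_disjoint_right.2 (disjoint_iff_inf_le.2 ?_)
        rw [hw, inf_iSup₂_eq]
        refine iSup₂_le fun h' h2 => hc h h' ⊥ fun s s1 s2 => ?_
        have h3 := hA s ▸ hm s1 h1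
        have h4 := hA s ▸ hm s2 h2
        exact sch_bot (x := z 0) (hl s (0, true) (Or.inr ⟨v, h4, h3⟩))
          (hl s (0, false) (Or.inr ⟨v, h4, h3⟩))
    | all f ih =>
      intro g h H
      exact le_iInf fun n => ih n (fun q => g (n :: q)) h fun h' hh a ha => H h' hh ⟨n, ha⟩
    | ex f ih =>
      intro g h H
      obtain ⟨i, hi⟩ := hd (g [])
      refine hu h i _ fun s s1 s2 => ?_
      obtain ⟨n, hn⟩ := sch_str_ex d (l := s.map Prod.fst) (i := i) (by rwa [List.length_map])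
      rw [hi] at hn
      exact le_iSup_of_le n (ih n (fun q => g (n :: q)) s fun h' hh a ha =>
        H h' (s1.trans hh) ⟨n, hs hh _ _ hn, ha⟩)
  have hr : ∀ (α : On) (h : List (ℕ × X)) (i : ℕ), i < h.length → sch_rho o h i = α →
      e h ≤ rkv (fun a b => w (.edge a b)) α i := by
    intro α
    induction α using WellFoundedLT.induction with
    | ind α ih =>
      intro h i hi hα
      refine le_rkv.2 fun j => ?_
      rw [hw, inf_iSup₂_eq]
      refine iSup₂_le fun h' h2 => hc h h' _ fun s s1 s2 => hu s j _ fun t t1 t2 => ?_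
      by_cases hb : e t = ⊥
      · exact hb.le.trans bot_le
      have h3 := hP.ok _ _ (ne_bot_of_le_ne_bot hb (e1 t)) j (by rwa [List.length_map]) i
        (by rw [List.length_map]; exact hi.trans_le (s1.trans t1).length_le)
        ((hA t).le (hm (s2.trans t1) h2))
      rw [sch_rho_stab o (s1.trans t1) hi, hα] at h3
      exact le_iSup₂_of_le _ h3 (ih _ h3 t j t2 rfl)
  refine e0.ge.trans (le_iSup_of_le w (le_inf (key Φ id [] fun h' _ => (hA h').ge) ?_))
  exact le_iInf fun k => hu [] k _ fun s _ s2 => le_iSup_of_le _ (hr _ s k s2 rfl)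

theorem exists_sch (Φ : NF) : ∃ T : Sch, ∀ (B : Type) [CompleteBooleanAlgebra B] (z : ℕ → B),
    SV T z = SemS Φ z := by
  obtain ⟨d, hd⟩ := exists_surjective_nat (List ℕ)
  exact ⟨sch_tree d Φ, fun B _ z => le_antisymm
    (iSup₂_le fun γ W => iSup_le fun h => sch_le hd Φ z h) (iSup_le fun w => sch_ge d Φ z w)⟩

end Pool.Agent.MP_fd3eaf_lc.Up
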