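import Pool.Agent.MP_fd3eaf_lc.Up.Tree
import Pool.Agent.Lib.PosetForcing.Basic

/-!
Complete homomorphisms from projections and from generic filters; the Levy collapse.
-/

set_option autoImplicit false

namespace Pool.Agent.MP_fd3eaf_lc.Up

open Pool.Agent.Lib.PosetForcing Function Cardinal

variable {P : Type} [Preorder P]

theorem le_of_io {a b : RO P} (h : ∀ p : P, io p ≤ a → ∃ q ≤ p, io q ≤ b) : a ≤ b :=
  le_of_forall_ne fun c hc h0 e => by
    obtain ⟨p, hp⟩ := exists_io_le h0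
    obtain ⟨q, h1, h2⟩ := h p (hp.trans hc)
    exact io_ne_bot q (eq_bot_iff.2 ((le_inf ((io_mono h1).trans hp) h2).trans e.le))

theorem io_common {p q : P} (h : io p ⊓ io q ≠ ⊥) : ∃ r, r ≤ p ∧ r ≤ q := by
  obtain ⟨U, hU⟩ := Lib.Forcing.Ult.exists_mem h
  exact exists_common ((U.inf _ _).1 hU).1 ((U.inf _ _).1 hU).2

theorem mk_RO_le : #(RO P) ≤ 2 ^ #P := by
  rw [← mk_set]
  refine mk_le_of_injective (f := fun a : RO P => {p | io p ≤ a}) fun a b h => ?_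
  have h' := Set.ext_iff.1 h
  exact le_antisymm (le_of_io fun p hp => ⟨p, le_rfl, (h' p).1 hp⟩)
    (le_of_io fun p hp => ⟨p, le_rfl, (h' p).2 hp⟩)

variable {B B0 Q : Type} [CompleteBooleanAlgebra B] [CompleteBooleanAlgebra B0]
  [CompleteBooleanAlgebra Q]

theorem exists_hom (f : Q → B) (h1 : Monotone f) (h2 : ∀ a, f a ⊓ f aᶜ = ⊥)
    (h3 : ∀ a, f a ⊔ f aᶜ = ⊤) (h4 : ∀ S : Set Q, f (sSup S) ≤ ⨆ s ∈ S, f s) :
    ∃ k : CompleteLatticeHom Q B, ∀ a, k a = f a := by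
  have hc : ∀ a, f aᶜ = (f a)ᶜ := fun a =>
    (IsCompl.compl_eq ⟨disjoint_iff.2 (h2 a), codisjoint_iff.2 (h3 a)⟩).symm
  have hs : ∀ S, f (sSup S) = sSup (f '' S) := fun S => by
    rw [sSup_image]
    exact le_antisymm (h4 S) (iSup₂_le fun s hs => h1 (le_sSup hs))
  refine ⟨⟨⟨f, fun S => compl_injective ?_⟩, hs⟩, fun _ => rfl⟩
  rw [← hc, compl_sInf', compl_sInf', hs, Set.image_image, Set.image_image]
  simp only [hc]

theorem hom_sSup {b : B} {S : Set B} (h : b ⊓ sSup S ≠ ⊥) : ∃ s ∈ S, b ⊓ s ≠ ⊥ := by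
  rw [sSup_eq_iSup'] at h
  obtain ⟨s, hs⟩ := ne_bot_iSup h
  exact ⟨s, s.2, hs⟩

/-- A projection gives a complete homomorphism. -/
theorem exists_proj (π : P → B0) (h0 : ∀ p, π p ≠ ⊥) (h1 : Monotone π)
    (h2 : ∀ p, ∀ b ≤ π p, b ≠ ⊥ → ∃ q ≤ p, π q ≤ b) :
    ∃ i : CompleteLatticeHom B0 (RO P), (∀ p b, io p ≤ i b ↔ π p ≤ b) ∧
      ((∀ b, b ≠ ⊥ → ∃ p, π p ≤ b) → Injective i) := by
  let f : B0 → RO P := fun b => ⨆ p : {p // π p ≤ b}, io p.1
  have key : ∀ p b, io p ≤ f b ↔ π p ≤ b := fun p b => by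
    refine ⟨fun h => le_of_forall_ne fun c hc hc0 e => ?_,
      fun h => le_iSup (fun p : {p // π p ≤ b} => io p.1) ⟨p, h⟩⟩
    obtain ⟨q, k1, k2⟩ := h2 p c hc hc0
    obtain ⟨p', k3⟩ := ne_bot_iSup (b := io q) (f := fun p : {p // π p ≤ b} => io p.1)
      (by rw [inf_eq_left.2 ((io_mono k1).trans h)]; exact io_ne_bot q)
    obtain ⟨r, k4, k5⟩ := io_common k3
    exact h0 r (eq_bot_iff.2 ((le_inf ((h1 k4).trans k2) ((h1 k5).trans p'.2)).trans e.le))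
  have ext : ∀ p b, π p ⊓ b ≠ ⊥ → ∃ q ≤ p, io q ≤ f b := fun p b h =>
    (h2 p _ inf_le_left h).imp fun q hq => ⟨hq.1, (key q b).2 (hq.2.trans inf_le_right)⟩
  obtain ⟨i, hi⟩ := exists_hom f
    (fun a b h => iSup_le fun p => (key _ _).2 (p.2.trans h))
    (fun a => by
      by_contra h
      obtain ⟨p, hp⟩ := exists_io_le h
      exact h0 p (eq_bot_iff.2 ((le_inf ((key _ _).1 (hp.trans inf_le_left))
        ((key _ _).1 (hp.trans inf_le_right))).trans inf_compl_eq_bot.le)))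
    (fun a => top_le_iff.1 (le_of_io fun p _ => by
      by_cases h : π p ⊓ a = ⊥
      · exact ⟨p, le_rfl, ((key _ _).2 (le_compl_iff_disjoint_right.2 (disjoint_iff.2 h))).trans
          le_sup_right⟩
      · exact (ext p a h).imp fun q hq => ⟨hq.1, hq.2.trans le_sup_left⟩))
    (fun S => le_of_io fun p hp => by
      obtain ⟨s, k1, k2⟩ := hom_sSup (b := π p) (S := S)
        (by rw [inf_eq_left.2 ((key _ _).1 hp)]; exact h0 p)
      exact (ext p s k2).imp fun q hq => ⟨hq.1, le_iSup₂_of_le s k1 hq.2⟩)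
  have key' : ∀ p b, io p ≤ i b ↔ π p ≤ b := fun p b => by rw [hi, key]
  refine ⟨i, key', fun h => ?_⟩
  have k : ∀ b b', i b = i b' → b ≤ b' := fun b b' e => le_of_forall_ne fun c hc hc0 e' => by
    obtain ⟨p, hp⟩ := h c hc0
    exact h0 p (eq_bot_iff.2 ((le_inf hp ((key' p b').1 (e ▸ (key' p b).2 (hp.trans hc)))).trans
      e'.le))
  exact fun b b' e => le_antisymm (k b b' e) (k b' b e.symm)

/-- If `B` makes the power set of `Q` countable, it adds a generic filter for `Q`. -/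
theorem exists_genhom (j : CompleteLatticeHom B0 B) (hj : Injective j)
    (i : CompleteLatticeHom B0 Q) (hi : Injective i) (a : ℕ → Set Q → B)
    (ha : ∀ n x x', x ≠ x' → a n x ⊓ a n x' = ⊥) (ha' : ∀ x, ⨆ n, a n x = ⊤) {q : Q} (hq : q ≠ ⊥) :
    ∃ k : CompleteLatticeHom Q B, (∀ b, k (i b) = j b) ∧ k q ≠ ⊥ := by
  obtain ⟨F, f1, f2, f3, f4, f5⟩ := exists_filter (fun c => j (adj i c))
    (fun S => (OrderHomClass.mono j (adj_sSup i S)).trans (by rw [map_iSup₂])) a ha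
    (fun _ _ S => {s | (∃ t ∈ S, s ≤ t) ∨ s ≤ (sSup S)ᶜ})
    (fun _ _ S p _ hp => by
      by_cases h : p ⊓ sSup S = ⊥
      · exact ⟨p, le_rfl, hp, Or.inr (le_compl_iff_disjoint_right.2 (disjoint_iff.2 h))⟩
      · obtain ⟨t, k1, k2⟩ := hom_sSup h
        exact ⟨p ⊓ t, inf_le_left, k2, Or.inl ⟨t, k1, inf_le_right⟩⟩)
    (fun _ _ _ _ _ => le_rfl) q _ le_rfl
  have hb : ∀ s c, s ≤ c → s ≤ cᶜ → F s = ⊥ := fun s c k1 k2 => by
    refine eq_bot_iff.2 ((f3 s).trans ?_)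
    rw [← map_bot j]
    exact OrderHomClass.mono j ((adj_le i).2 ((le_inf k1 k2).trans (by simp)))
  have ht : j (adj i ⊤) = ⊤ := by rw [← map_top i, adj_map i hi, map_top]
  have hG : ∀ p (S : Set Q) (b : B), (∀ s ≤ p, (∃ t ∈ S, s ≤ t) ∨ s ≤ (sSup S)ᶜ → F s ≤ b) →
      F p ≤ b := fun p S b h => by
    rw [← inf_top_eq (F p), ← ha' S, inf_iSup_eq]
    exact iSup_le fun n => (f5 p n S).trans (iSup₂_le fun s hs => iSup_le fun k => h s k hs)
  let f : Q → B := fun c => ⨆ s : {s // s ≤ c}, F s.1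
  have hf : ∀ s c, s ≤ c → F s ≤ f c := fun s c h => le_iSup (fun s : {s // s ≤ c} => F s.1) ⟨s, h⟩
  obtain ⟨k, hk⟩ := exists_hom f (fun a b h => iSup_le fun s => hf _ _ (s.2.trans h))
    (fun c => by
      by_contra h
      obtain ⟨s', k1⟩ := ne_bot_iSup h
      rw [inf_comm] at k1
      obtain ⟨s, k2⟩ := ne_bot_iSup k1
      rcases f4 _ _ k2 with e | e
      · exact k2 (by rw [hb _ c (e.trans s.2) s'.2, bot_inf_eq])
      · exact k2 (by rw [hb _ c s.2 (e.trans s'.2), inf_bot_eq]))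
    (fun c => by
      have h : ∀ p, F p ≤ f c ⊔ f cᶜ := fun p => hG p {c} _ fun s _ hs => by
        rcases hs with ⟨t, rfl, hs⟩ | hs
        · exact (hf _ _ hs).trans le_sup_left
        · exact (hf _ _ (by simpa using hs)).trans le_sup_right
      rw [ht, inf_top_eq] at f2
      exact top_le_iff.1 ((sup_compl_eq_top (x := j (adj i q))).ge.trans
        (sup_le (f1.trans (h q)) (f2.trans (h ⊤)))))
    (fun S => iSup_le fun p => hG p S _ fun s k1 hs => by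
      rcases hs with ⟨t, k2, hs⟩ | hs
      · exact le_iSup₂_of_le t k2 (hf _ _ hs)
      · exact (hb s _ (k1.trans p.2) hs).le.trans bot_le)
  have hle : ∀ b, k (i b) ≤ j b := fun b => by
    rw [hk]
    exact iSup_le fun s => (f3 _).trans (OrderHomClass.mono j ((adj_le i).2 s.2))
  refine ⟨k, fun b => le_antisymm (hle b) ?_, fun e => adj_ne_bot i hq (hj ?_)⟩
  · have := hle bᶜ
    rwa [map_compl' i, map_compl' k, map_compl' j, compl_le_compl_iff_le] at this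
  · rw [map_bot, eq_bot_iff, ← e, hk]
    exact f1.trans (hf _ _ le_rfl)

/-- Finite partial functions `(β, n) ↦ δ` with `R δ β`. -/
def levyG {K : Type} (R : K → K → Prop) (p : Finset (K × ℕ × K)) : Prop :=
  (∀ t ∈ p, R t.2.2 t.1) ∧ ∀ t ∈ p, ∀ t' ∈ p, t.1 = t'.1 → t.2.1 = t'.2.1 → t.2.2 = t'.2.2

/-- Conditions with support in `A`, ordered by reverse inclusion. -/
abbrev levyP {K : Type} (R : K → K → Prop) (A : Set K) : Type :=
  {p : Finset (K × ℕ × K) // levyG R p ∧ ∀ t ∈ p, t.1 ∈ A}ᵒᵈ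

section levy
variable {K : Type} {R : K → K → Prop} {κ : Cardinal.{0}}

theorem levy_le {A : Set K} {p q : levyP R A} : p ≤ q ↔ ∀ t ∈ q.1, t ∈ p.1 := Iff.rfl

theorem levy_union {A : Set K} (p : levyP R Set.univ) (s : levyP R A)
    (h : ∀ t ∈ p.1, ∀ t' ∈ s.1, t.1 = t'.1 → t ∈ s.1 ∨ t' ∈ p.1) :
    ∃ q : levyP R Set.univ, q ≤ p ∧ ∀ t ∈ s.1, t ∈ q.1 := by
  classical
  refine ⟨⟨p.1 ∪ s.1, ⟨fun t ht => ?_, fun t ht t' ht' h1 h2 => ?_⟩, fun _ _ => trivial⟩,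
    fun t ht => Finset.mem_union_left _ ht, fun t ht => Finset.mem_union_right _ ht⟩
  · exact (Finset.mem_union.1 ht).elim (p.2.1.1 t) (s.2.1.1 t)
  · rcases Finset.mem_union.1 ht with a | a <;> rcases Finset.mem_union.1 ht' with b | b
    · exact p.2.1.2 t a t' b h1 h2
    · exact (h t a t' b h1).elim (fun c => s.2.1.2 t c t' b h1 h2) fun c => p.2.1.2 t a t' c h1 h2
    · exact (h t' b t a h1.symm).elim (fun c => s.2.1.2 t a t' c h1 h2)
        fun c => p.2.1.2 t c t' b h1 h2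
    · exact s.2.1.2 t a t' b h1 h2

theorem levy_res (A : Set K) : ∃ res : levyP R Set.univ → levyP R A,
    ∀ p t, t ∈ (res p).1 ↔ t ∈ p.1 ∧ t.1 ∈ A := by
  classical
  exact ⟨fun p => ⟨p.1.filter fun t => t.1 ∈ A,
    ⟨fun t ht => p.2.1.1 t (Finset.mem_filter.1 ht).1, fun t ht t' ht' =>
      p.2.1.2 t (Finset.mem_filter.1 ht).1 t' (Finset.mem_filter.1 ht').1⟩,
    fun t ht => (Finset.mem_filter.1 ht).2⟩, fun p t => Finset.mem_filter⟩

theorem levy_card (hκ : κ.IsInaccessible) (hR : ∀ β, #{δ // R δ β} < κ) {A : Set K}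
    (hA : #A < κ) : #(levyP R A) < κ := by
  have h1 : #((β : A) × (ℕ × {δ // R δ β.1})) < κ := by
    rw [mk_sigma]
    refine sum_lt_of_isRegular hκ.isRegular hA fun β => ?_
    rw [mk_prod, lift_id, lift_id]
    exact mul_lt_of_lt hκ.1.le (by simpa using hκ.1) (hR _)
  refine lt_of_le_of_lt ?_ (hκ.isStrongPrelimit h1)
  rw [← mk_set]
  refine mk_le_of_injective (f := fun p : levyP R A =>
    {u : (β : A) × (ℕ × {δ // R δ β.1}) | (u.1.1, u.2.1, u.2.2.1) ∈ p.1}) fun p q h => ?_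
  refine Subtype.ext (Finset.ext fun t => ⟨fun ht => ?_, fun ht => ?_⟩)
  · exact (Set.ext_iff.1 h ⟨⟨t.1, p.2.2 t ht⟩, t.2.1, t.2.2, p.2.1.1 t ht⟩).1 ht
  · exact (Set.ext_iff.1 h ⟨⟨t.1, q.2.2 t ht⟩, t.2.1, t.2.2, q.2.1.1 t ht⟩).2 ht

theorem levy_step (hκ : κ.IsInaccessible) (hR : ∀ β, #{δ // R δ β} < κ)
    (D : ℕ → levyP R Set.univ → Prop) (A : Set K) : ∃ A' : Set K, A ⊆ A' ∧ (#A < κ → #A' < κ) ∧
      ∀ n p, D n p → ∃ p', D n p' ∧ (∀ t ∈ p'.1, t.1 ∈ A') ∧ ∀ t ∈ p'.1, t.1 ∈ A → t ∈ p.1 := by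
  obtain ⟨res, hres⟩ := levy_res (R := R) A
  have h : ∀ u : levyP R A × ℕ, ∃ p' : levyP R Set.univ,
      ∀ p, D u.2 p → res p = u.1 → D u.2 p' ∧ res p' = u.1 := by
    intro u
    by_cases h : ∃ p, D u.2 p ∧ res p = u.1
    · obtain ⟨p, h⟩ := h
      exact ⟨p, fun _ _ _ => h⟩
    · exact ⟨⟨∅, ⟨by simp, by simp⟩, by simp⟩, fun p h1 h2 => (h ⟨p, h1, h2⟩).elim⟩
  choose c hc using h
  refine ⟨A ∪ ⋃ u, Prod.fst '' ((c u).1 : Set (K × ℕ × K)), Set.subset_union_left, fun hA => ?_,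
    fun n p hp => ?_⟩
  · refine (mk_union_le _ _).trans_lt (add_lt_of_lt hκ.1.le hA ?_)
    refine (card_iUnion_lt_iff_forall_of_isRegular hκ.isRegular ?_).2 fun u => ?_
    · rw [mk_prod, lift_id, lift_id]
      exact mul_lt_of_lt hκ.1.le (levy_card hκ hR hA) (by simpa using hκ.1)
    · exact (lt_aleph0_iff_set_finite.2 ((c u).1.finite_toSet.image _)).trans hκ.1
  · obtain ⟨h1, h2⟩ := hc (res p, n) p hp rfl
    refine ⟨c (res p, n), h1, fun t ht => Or.inr (Set.mem_iUnion.2 ⟨_, t, ht, rfl⟩),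
      fun t ht hA => ?_⟩
    have h3 := (hres _ t).2 ⟨ht, hA⟩
    rw [h2] at h3
    exact ((hres p t).1 h3).1

theorem levy_close (hκ : κ.IsInaccessible) (hR : ∀ β, #{δ // R δ β} < κ)
    (D : ℕ → levyP R Set.univ → Prop) : ∃ A : Set K, #A < κ ∧
      ∀ n p, D n p → ∃ p', D n p' ∧ (∀ t ∈ p'.1, t.1 ∈ A) ∧ ∃ q ≤ p, q ≤ p' := by
  choose F h1 h2 h3 using levy_step hκ hR D
  obtain ⟨A, h0, hs⟩ : ∃ A : ℕ → Set K, A 0 = ∅ ∧ ∀ m, A (m + 1) = F (A m) :=
    ⟨fun m => F^[m] ∅, rfl, fun m => iterate_succ_apply' F m ∅⟩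
  have hm : Monotone A := monotone_nat_of_le_succ fun m => hs m ▸ h1 (A m)
  refine ⟨⋃ m, A m, ?_, fun n p hp => ?_⟩
  · refine (card_iUnion_lt_iff_forall_of_isRegular hκ.isRegular (by simpa using hκ.1)).2 fun m => ?_
    induction m with
    | zero => rw [h0, mk_eq_zero]; exact hκ.pos
    | succ m ih => rw [hs]; exact h2 _ ih
  · have h4 : ∀ t : K × ℕ × K, ∃ m, t.1 ∈ (⋃ m, A m) → t.1 ∈ A m := fun t => by
      by_cases h : t.1 ∈ ⋃ m, A m
      · exact (Set.mem_iUnion.1 h).imp fun _ a _ => a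
      · exact ⟨0, fun a => (h a).elim⟩
    choose g hg using h4
    obtain ⟨p', a, b, c⟩ := h3 (A (p.1.sup g)) n p hp
    have b' : ∀ t ∈ p'.1, t.1 ∈ ⋃ m, A m := fun t ht =>
      Set.mem_iUnion.2 ⟨p.1.sup g + 1, hs _ ▸ b t ht⟩
    obtain ⟨q, e1, e2⟩ := levy_union p p' fun t ht t' ht' e =>
      Or.inr (c t' ht' (e ▸ hm (Finset.le_sup ht) (hg t (e ▸ b' t' ht'))))
    exact ⟨p', a, b', q, e1, e2⟩

theorem levy_sub (hκ : κ.IsInaccessible) (hR : ∀ β, #{δ // R δ β} < κ)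
    (r : ℕ → RO (levyP R Set.univ)) :
    ∃ (B0 : Type) (_ : CompleteBooleanAlgebra B0)
      (j : CompleteLatticeHom B0 (RO (levyP R Set.univ))),
        #B0 < κ ∧ Injective j ∧ ∀ n, ∃ b, j b = r n := by
  obtain ⟨A, hA, hD⟩ := levy_close hκ hR fun n p => io p ≤ r n
  obtain ⟨res, hres⟩ := levy_res (R := R) A
  have key : ∀ (p : levyP R Set.univ) (s : levyP R A), io (res p) ⊓ io s ≠ ⊥ →
      ∃ q ≤ p, ∀ t ∈ s.1, t ∈ q.1 := fun p s h => by
    obtain ⟨s', a, b⟩ := io_common h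
    obtain ⟨q, e1, e2⟩ := levy_union p s' fun t ht t' ht' e =>
      Or.inl (a ((hres p t).2 ⟨ht, e ▸ s'.2.2 t' ht'⟩))
    exact ⟨q, e1, fun t ht => e2 t (b ht)⟩
  have key2 : ∀ (q : levyP R Set.univ) (s : levyP R A), (∀ t ∈ s.1, t ∈ q.1) →
      io (res q) ≤ io s := fun q s h =>
    io_mono (levy_le.2 fun t ht => (hres q t).2 ⟨h t ht, s.2.2 t ht⟩)
  obtain ⟨i, h1, h2⟩ := exists_proj (fun p => io (res p)) (fun p => io_ne_bot _)
    (fun p q h => key2 p _ fun t ht => levy_le.1 h t ((hres q t).1 ht).1) fun p b hb h0 => by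
      obtain ⟨s, hs⟩ := exists_io_le h0
      obtain ⟨q, e1, e2⟩ := key p s (by
        rw [inf_eq_right.2 (hs.trans hb)]; exact io_ne_bot s)
      exact ⟨q, e1, (key2 q s e2).trans hs⟩
  refine ⟨RO (levyP R A), inferInstance, i,
    mk_RO_le.trans_lt (hκ.isStrongPrelimit (levy_card hκ hR hA)), h2 fun b h0 => ?_, fun n => ?_⟩
  · obtain ⟨s, hs⟩ := exists_io_le h0
    exact ⟨⟨s.1, s.2.1, fun _ _ => trivial⟩, (key2 _ s fun _ h => h).trans hs⟩
  · refine ⟨⨆ s : {s : levyP R A // ∀ q : levyP R Set.univ, (∀ t ∈ s.1, t ∈ q.1) → io q ≤ r n},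
      io s.1, le_antisymm (le_of_io fun p hp => ?_) (le_of_io fun p hp => ?_)⟩
    · obtain ⟨s, hs⟩ := ne_bot_iSup (b := io (res p)) (by
        rw [inf_eq_left.2 ((h1 p _).1 hp)]; exact io_ne_bot _)
      obtain ⟨q, e1, e2⟩ := key p s.1 hs
      exact ⟨q, e1, s.2 q e2⟩
    · obtain ⟨p', a, b, q, e1, e2⟩ := hD n p hp
      refine ⟨q, e1, (h1 q _).2 ?_⟩
      exact le_iSup_of_le ⟨⟨p'.1, p'.2.1, b⟩, fun q' h => (io_mono (levy_le.2 h)).trans a⟩
        (key2 q _ fun t ht => e2 ht)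

theorem levy_coll {X : Type} {β : K} (g : X → K) (hg : Injective g) (hR : ∀ x, R (g x) β) :
    ∃ a : ℕ → X → RO (levyP R Set.univ), (∀ n x x', x ≠ x' → a n x ⊓ a n x' = ⊥) ∧
      ∀ x, ⨆ n, a n x = ⊤ := by
  classical
  refine ⟨fun n x => ⨆ p : {p : levyP R Set.univ // (β, n, g x) ∈ p.1}, io p.1,
    fun n x x' hx => ?_, fun x => top_le_iff.1 (le_of_io fun p _ => ?_)⟩
  · by_contra h
    obtain ⟨p', h1⟩ := ne_bot_iSup h
    rw [inf_comm] at h1
    obtain ⟨p, h2⟩ := ne_bot_iSup h1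
    obtain ⟨q, a, b⟩ := io_common h2
    exact hx (hg (q.2.1.2 _ (b p.2) _ (a p'.2) rfl rfl))
  · obtain ⟨n, hn⟩ := Infinite.exists_notMem_finset (p.1.image fun t => t.2.1)
    have hn' : ∀ t ∈ p.1, t.2.1 ≠ n := fun t ht e => hn (Finset.mem_image.2 ⟨t, ht, e⟩)
    refine ⟨⟨insert (β, n, g x) p.1, ⟨fun t ht => ?_, fun t ht t' ht' h1 h2 => ?_⟩,
      fun _ _ => trivial⟩, fun t ht => Finset.mem_insert_of_mem ht,
      le_iSup_of_le n (le_iSup_of_le ⟨_, Finset.mem_insert_self _ _⟩ le_rfl)⟩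
    · rcases Finset.mem_insert.1 ht with rfl | a
      · exact hR x
      · exact p.2.1.1 t a
    · rcases Finset.mem_insert.1 ht with rfl | a <;> rcases Finset.mem_insert.1 ht' with rfl | b
      · rfl
      · exact (hn' t' b h2.symm).elim
      · exact (hn' t a h2).elim
      · exact p.2.1.2 t a t' b h1 h2

end levy

/-- The Levy collapse. -/
theorem exists_levy {κ : Cardinal.{0}} (hκ : κ.IsInaccessible) :
    ∃ (B : Type) (_ : CompleteBooleanAlgebra B), (⊤ : B) ≠ ⊥ ∧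
      (∀ X : Type, #X < κ → ∃ a : ℕ → X → B, (∀ n x x', x ≠ x' → a n x ⊓ a n x' = ⊥) ∧
        ∀ x, ⨆ n, a n x = ⊤) ∧
      ∀ r : ℕ → B, ∃ (B0 : Type) (_ : CompleteBooleanAlgebra B0) (j : CompleteLatticeHom B0 B),
        #B0 < κ ∧ Injective j ∧ ∀ n, ∃ b, j b = r n := by
  refine ⟨RO (levyP (K := κ.ord.ToType) (· < ·) Set.univ), inferInstance, fun h => ?_,
    fun X hX => ?_, levy_sub hκ fun β => ?_⟩
  · exact io_ne_bot (P := levyP (K := κ.ord.ToType) (· < ·) Set.univ)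
      ⟨∅, ⟨by simp, by simp⟩, by simp⟩ (eq_bot_iff.2 (le_top.trans h.le))
  · have h : (#X).ord < Ordinal.type (α := κ.ord.ToType) (· < ·) := by
      rw [Ordinal.type_toType]; exact ord_lt_ord.2 hX
    obtain ⟨β, hβ⟩ := Ordinal.typein_surj _ h
    have h2 : #X ≤ #{δ // δ < β} := by
      have h3 := congrArg Ordinal.card hβ
      rw [Ordinal.card_typein, card_ord] at h3
      exact h3.ge
    obtain ⟨g⟩ := (Cardinal.le_def _ _).1 h2
    exact levy_coll (β := β) (fun x => (g x).1) (Subtype.val_injective.comp g.injective)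
      fun x => (g x).2
  · have h : #(Set.Iio β) < κ := by simpa using mk_Iio_lt β
    exact h

end Pool.Agent.MP_fd3eaf_lc.Up
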