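import Pool.Agent.MP_fd3eaf_lc.Loc

/-!
Boolean values of `Σ^1_2` statements: trees of attempts on `ℕ × On`.  Disjoint Boolean-valued
branches and filters.
-/

set_option autoImplicit false

namespace Pool.Agent.MP_fd3eaf_lc.Up

open Function

/-- A tree of attempts: a node `l` asks for some literals about the real and some inequalities
between the ordinals chosen so far. -/
structure Sch where
  lits : List ℕ → Set (ℕ × Bool)
  edge : List ℕ → ℕ → ℕ → Prop

/-- The inequalities of a node hold. -/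
def Sch.ok (T : Sch) (l : List ℕ) (ρ : ℕ → On) : Prop :=
  ∀ i < l.length, ∀ j < l.length, T.edge l i j → ρ i < ρ j

variable {B C : Type} [CompleteBooleanAlgebra B] [CompleteBooleanAlgebra C]

/-- The value of a literal. -/
def lit (b : B) (s : Bool) : B := cond s b bᶜ

/-- The value of the literals of a node. -/
def Sch.cv (T : Sch) (z : ℕ → B) (l : List ℕ) : B := ⨅ a ∈ T.lits l, lit (z a.1) a.2

/-- A Boolean-valued subtree without leaves. -/
structure Post (T : Sch) (z : ℕ → B) (γ : On) (W : List ℕ → (ℕ → On) → B) : Prop where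
  le : ∀ l ρ, W l ρ ≤ T.cv z l
  ok : ∀ l ρ, W l ρ ≠ ⊥ → T.ok l ρ
  step : ∀ l ρ, W l ρ ≤ ⨆ (k : ℕ) (α : On) (_ : α < γ), W (k :: l) (update ρ l.length α)

/-- The value of: the tree has a branch. -/
def SV (T : Sch) (z : ℕ → B) : B :=
  ⨆ (γ : On) (W : List ℕ → (ℕ → On) → B) (_ : Post T z γ W), W [] 0

/-- The value of a `Σ^1_4` statement. -/
def Val3 (T : Sch) (A1 A2 : Set ℕ) (r : ℕ → B) : B :=
  ⨆ (x : ℕ → B) (_ : ∀ n ∈ A1, x n = r n), ⨅ (y : ℕ → B) (_ : ∀ n ∈ A2, y n = x n), SV T y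

theorem Post.le_SV {T : Sch} {z : ℕ → B} {γ : On} {W : List ℕ → (ℕ → On) → B}
    (h : Post T z γ W) : W [] 0 ≤ SV T z :=
  le_iSup₂_of_le γ W (le_iSup_of_le h le_rfl)

theorem Post.mono {T : Sch} {z : ℕ → B} {γ γ' : On} {W : List ℕ → (ℕ → On) → B}
    (h : Post T z γ W) (hγ : γ ≤ γ') : Post T z γ' W :=
  ⟨h.le, h.ok, fun l ρ => (h.step l ρ).trans (iSup_le fun k => iSup₂_le fun α hα =>
    le_iSup₂_of_le k α (le_iSup_of_le (hα.trans_le hγ) le_rfl))⟩

theorem ne_bot_iSup {ι : Sort*} {f : ι → B} {b : B} (h : b ⊓ ⨆ i, f i ≠ ⊥) : ∃ i, b ⊓ f i ≠ ⊥ := by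
  by_contra hn
  push Not at hn
  exact h (by rw [inf_iSup_eq]; exact iSup_eq_bot.2 hn)

theorem le_of_forall_ne {a b : B} (h : ∀ p ≤ a, p ≠ ⊥ → p ⊓ b ≠ ⊥) : a ≤ b := by
  by_contra hn
  refine h (a ⊓ bᶜ) inf_le_left (fun e => hn ?_) (by simp [inf_assoc])
  rwa [← disjoint_iff, disjoint_compl_right_iff] at e

theorem exists_post (T : Sch) (z : ℕ → B) : ∃ γ W, Post T z γ W ∧ SV T z ≤ W [] 0 := by
  have h : ∀ b : {b : B // ∃ γ W, Post T z γ W ∧ W [] 0 = b}, ∃ γ W, Post T z γ W ∧ W [] 0 = b :=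
    fun b => b.2
  choose γ W h1 h2 using h
  have h3 : ∀ b, Post T z (⨆ b, γ b) (W b) := fun b => (h1 b).mono (Ordinal.le_iSup γ b)
  refine ⟨⨆ b, γ b, fun l ρ => ⨆ b, W b l ρ, ⟨fun l ρ => iSup_le fun b => (h1 b).le l ρ,
    fun l ρ h => ?_, fun l ρ => iSup_le fun b => ((h3 b).step l ρ).trans (iSup_mono fun k =>
      iSup₂_mono fun α _ => le_iSup (fun b => W b _ _) b)⟩, iSup₂_le fun γ' W' => iSup_le fun h => ?_⟩
  · obtain ⟨b, hb⟩ := ne_bot_iSup (b := ⊤) (f := fun b => W b l ρ) (by simpa using h)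
    exact (h1 b).ok l ρ (by simpa using hb)
  · exact le_iSup_of_le ⟨_, γ', W', h, rfl⟩ (h2 ⟨_, γ', W', h, rfl⟩).ge

/-- The left adjoint of a complete homomorphism. -/
def adj (k : CompleteLatticeHom B C) (q : C) : B := sInf {b | q ≤ k b}

theorem adj_le (k : CompleteLatticeHom B C) {q : C} {b : B} : adj k q ≤ b ↔ q ≤ k b := by
  refine ⟨fun h => le_trans ?_ (OrderHomClass.mono k h), fun h => sInf_le h⟩
  rw [adj, map_sInf]
  exact le_sInf fun _ ⟨_, h1, h2⟩ => h2 ▸ h1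

theorem le_adj (k : CompleteLatticeHom B C) (q : C) : q ≤ k (adj k q) := (adj_le k).1 le_rfl

theorem adj_mono (k : CompleteLatticeHom B C) : Monotone (adj k) := fun _ _ h =>
  (adj_le k).2 (h.trans (le_adj k _))

theorem adj_ne_bot (k : CompleteLatticeHom B C) {q : C} (h : q ≠ ⊥) : adj k q ≠ ⊥ := fun e =>
  h (by simpa using (adj_le k).1 e.le)

theorem adj_sSup (k : CompleteLatticeHom B C) (S : Set C) : adj k (sSup S) ≤ ⨆ q ∈ S, adj k q :=
  (adj_le k).2 (sSup_le fun q hq => (adj_le k).1 (le_iSup₂_of_le q hq le_rfl))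

theorem adj_ext (k : CompleteLatticeHom B C) {q : C} {b : B} (h : b ≤ adj k q) (hb : b ≠ ⊥) :
    q ⊓ k b ≠ ⊥ := fun e => by
  have h1 : adj k q ≤ bᶜ := (adj_le k).2 (by
    rw [map_compl']; exact le_compl_iff_disjoint_right.2 (disjoint_iff.2 e))
  exact hb (le_compl_self.1 (h.trans h1))

theorem adj_map (k : CompleteLatticeHom B C) (hk : Injective k) (b : B) : adj k (k b) = b := by
  refine le_antisymm ((adj_le k).2 le_rfl) ?_
  have h := le_adj k (k b)
  rw [← inf_eq_left, ← map_inf] at h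
  exact inf_eq_left.1 (hk h)

theorem map_lit (k : CompleteLatticeHom B C) (b : B) (s : Bool) : k (lit b s) = lit (k b) s := by
  cases s
  · exact map_compl' k b
  · rfl

theorem exists_disj {T : Type} (f : T → B) : ∃ d : T → B, (∀ t, d t ≤ f t) ∧
    (∀ t t', t ≠ t' → d t ⊓ d t' = ⊥) ∧ ⨆ t, f t ≤ ⨆ t, d t := by
  let r : T → T → Prop := WellOrderingRel
  let d : T → B := fun t => f t ⊓ (⨆ s, ⨆ (_ : r s t), f s)ᶜ
  have hd : ∀ s t, r s t → d s ⊓ d t = ⊥ := fun s t h => eq_bot_iff.2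
    ((inf_le_inf (inf_le_left.trans (le_iSup₂ (f := fun s (_ : r s t) => f s) s h)) inf_le_right).trans
      inf_compl_eq_bot.le)
  refine ⟨d, fun _ => inf_le_left, fun s t h => ?_, iSup_le fun t => ?_⟩
  · rcases trichotomous_of r s t with k | k | k
    · exact hd s t k
    · exact (h k).elim
    · rw [inf_comm]; exact hd t s k
  · induction t using (IsWellFounded.wf (r := r)).induction with
    | _ t ih =>
      calc f t ≤ d t ⊔ ⨆ s, ⨆ (_ : r s t), f s := by
            simp only [d, sup_inf_right, compl_sup_eq_top, inf_top_eq, le_sup_left]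
        _ ≤ _ := sup_le (le_iSup d t) (iSup₂_le ih)

theorem tree_down {T : Type} {e : List T → B} (h : ∀ t l, e (t :: l) ≤ e l) {l l' : List T}
    (hl : l <:+ l') : e l' ≤ e l := by
  obtain ⟨s, rfl⟩ := hl
  induction s with
  | nil => exact le_rfl
  | cons t s ih => exact (h t _).trans ih

/-- A disjoint refinement of a tree without leaves. -/
theorem exists_tree {T : Type} (W : List T → B) (h : ∀ l, W l ≤ ⨆ t, W (t :: l)) :
    ∃ e : List T → B, e [] = W [] ∧ (∀ l, e l ≤ W l) ∧ (∀ t l, e (t :: l) ≤ e l) ∧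
      (∀ l, e l ≤ ⨆ t, e (t :: l)) ∧ ∀ l l', e l ⊓ e l' ≠ ⊥ → l <:+ l' ∨ l' <:+ l := by
  choose d h1 h2 h3 using fun l => exists_disj fun t => W (t :: l)
  let e : List T → B := fun l => List.rec (W []) (fun t l b => b ⊓ d l t) l
  have e1 : ∀ t l, e (t :: l) = e l ⊓ d l t := fun _ _ => rfl
  have a1 : ∀ l, e l ≤ W l := fun l => by
    cases l with
    | nil => exact le_rfl
    | cons t l => exact inf_le_right.trans (h1 l t)
  have a2 : ∀ t l, e (t :: l) ≤ e l := fun _ _ => inf_le_left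
  have a3 : ∀ l l' : List T, l.length = l'.length → e l ⊓ e l' ≠ ⊥ → l = l' := by
    intro l
    induction l with
    | nil => exact fun l' h _ => (List.length_eq_zero_iff.1 h.symm).symm
    | cons t l ih =>
      rintro (_ | ⟨t', l'⟩) h k
      · simp at h
      obtain rfl := ih l' (by simpa using h) fun e0 =>
        k (eq_bot_iff.2 ((inf_le_inf (a2 t l) (a2 t' l')).trans e0.le))
      by_contra hn
      exact k (eq_bot_iff.2 ((inf_le_inf inf_le_right inf_le_right).trans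
        (h2 l t t' fun e0 => hn (by rw [e0])).le))
  have a4 : ∀ l l' : List T, l.length ≤ l'.length → e l ⊓ e l' ≠ ⊥ → l <:+ l' := fun l l' h k => by
    have := a3 l (l'.drop (l'.length - l.length)) (by simp; omega) fun e0 =>
      k (eq_bot_iff.2 ((inf_le_inf_left _ (tree_down a2 (List.drop_suffix _ _))).trans e0.le))
    exact this ▸ List.drop_suffix _ _
  refine ⟨e, rfl, a1, a2, fun l => ?_, fun l l' k => (le_total l.length l'.length).imp
    (fun h => a4 l l' h k) fun h => a4 l' l h (by rwa [inf_comm])⟩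
  simp only [e1, ← inf_iSup_eq]
  exact le_inf le_rfl ((a1 l).trans ((h l).trans (h3 l)))

theorem tree_up {T : Type} {e : List T → B} (h : ∀ l, e l ≤ ⨆ t, e (t :: l)) (l : List T) (n : ℕ) :
    e l ≤ ⨆ (s : List T) (_ : s.length = n), e (s ++ l) := by
  induction n with
  | zero => exact le_iSup₂_of_le [] rfl le_rfl
  | succ n ih =>
    refine ih.trans (iSup₂_le fun s hs => (h _).trans (iSup_le fun t => ?_))
    exact le_iSup₂_of_le (t :: s) (by simp [hs]) le_rfl

theorem Nm_le {a b c : B} (h : c ≤ aᶜ ⊔ b) : c ⊓ a ≤ b := by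
  rwa [sup_comm, ← himp_eq, le_himp_iff] at h

theorem le_Nm {a b c : B} (h : c ⊓ a ≤ b) : c ≤ aᶜ ⊔ b := by
  rwa [sup_comm, ← himp_eq, le_himp_iff]

/-- A Boolean-valued chain `F` in `C` that is compatible with `π` and meets countably many dense
sets, which are chosen by the generic filter of `B`. -/
theorem exists_filter (π : C → B) (hπ : ∀ S : Set C, π (sSup S) ≤ ⨆ q ∈ S, π q)
    {J X : Type} [Countable J] [Nonempty J] (a : J → X → B)
    (ha : ∀ j x x', x ≠ x' → a j x ⊓ a j x' = ⊥) (D : C → J → X → Set C)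
    (hd : ∀ p j x, ∀ p' ≤ p, p' ≠ ⊥ → ∃ q ≤ p', q ≠ ⊥ ∧ q ∈ D p j x)
    (hD : ∀ p p' j x, p ≤ p' → D p j x ⊆ D p' j x) (c0 : C) (b0 : B) (h0 : b0 ≤ π c0) :
    ∃ F : C → B, b0 ≤ F c0 ∧ b0ᶜ ⊓ π ⊤ ≤ F ⊤ ∧ (∀ q, F q ≤ π q) ∧
      (∀ q q', F q ⊓ F q' ≠ ⊥ → q ≤ q' ∨ q' ≤ q) ∧
      ∀ p j x, F p ⊓ a j x ≤ ⨆ (q ∈ D p j x) (_ : q ≤ p), F q := by
  obtain ⟨g, hg⟩ := exists_surjective_nat J
  let W : List C → B := fun l => match l with
    | [] => b0 ⊔ b0ᶜ ⊓ π ⊤
    | [q] => (b0 ⊓ ⨆ _ : q = c0, ⊤) ⊔ (b0ᶜ ⊓ π ⊤ ⊓ ⨆ _ : q = ⊤, ⊤)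
    | q :: p :: l => π q ⊓ (⨆ _ : q ≤ p, ⊤) ⊓
        ⨅ x, (a (g l.length.unpair.1) x)ᶜ ⊔ ⨆ _ : q ∈ D p (g l.length.unpair.1) x, ⊤
  have pr : ∀ {p : Prop} {b : B}, b ≠ ⊥ → b ≤ (⨆ _ : p, ⊤) → p := fun {p b} h1 h2 => by
    by_contra hn
    exact h1 (by simpa [hn] using h2)
  have w1 : ∀ q l, W (q :: l) ≤ π q := fun q l => by
    cases l with
    | nil =>
      refine sup_le ?_ ?_
      · by_cases h : q = c0 <;> simp [h, h0]
      · by_cases h : q = ⊤ <;> simp [h]
    | cons p l => exact inf_le_left.trans inf_le_left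
  have w2 : ∀ l, W l ≤ ⨆ t, W (t :: l) := fun l => by
    cases l with
    | nil =>
      exact sup_le (le_iSup_of_le c0 (le_sup_of_le_left (by simp)))
        (le_iSup_of_le ⊤ (le_sup_of_le_right (by simp)))
    | cons p l =>
      refine (w1 p l).trans (le_of_forall_ne fun c hc h1 h2 => ?_)
      set j := g l.length.unpair.1
      by_cases h3 : c ⊓ ⨆ x, a j x = ⊥
      · refine h1 (eq_bot_iff.2 (le_trans (le_inf le_rfl (le_iSup_of_le p ?_)) h2.le))
        refine le_inf (le_inf hc (by simp)) (le_iInf fun x => le_sup_of_le_left ?_)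
        exact le_compl_iff_disjoint_right.2 (disjoint_iff.2
          (eq_bot_iff.2 ((inf_le_inf_left _ (le_iSup _ x)).trans h3.le)))
      · obtain ⟨x, hx⟩ := ne_bot_iSup h3
        have h4 : p ≤ sSup {q | q ≤ p ∧ q ∈ D p j x} := le_of_forall_ne fun p' b1 b2 b3 => by
          obtain ⟨q, c1, c2, c3⟩ := hd p j x p' b1 b2
          exact c2 (eq_bot_iff.2 ((le_inf c1 (le_sSup (And.intro (c1.trans b1) c3))).trans b3.le))
        have h5 : π p ≤ ⨆ q ∈ {q | q ≤ p ∧ q ∈ D p j x}, π q := by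
          have := hπ {q | q ≤ p ∧ q ∈ D p j x}
          rwa [le_antisymm (sSup_le fun q hq => hq.1) h4] at this
        refine hx (eq_bot_iff.2 (le_trans (le_inf inf_le_left ?_) h2.le))
        refine (inf_le_inf_right _ (hc.trans h5)).trans ?_
        rw [iSup₂_inf_eq]
        refine iSup₂_le fun q hq => le_iSup_of_le q (le_inf (le_inf inf_le_left ?_)
          (le_iInf fun x' => ?_))
        · exact le_iSup_of_le hq.1 le_top
        · by_cases e : x = x'
          · subst e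
            exact le_sup_of_le_right (le_iSup_of_le hq.2 le_top)
          · exact le_sup_of_le_left (inf_le_right.trans
              (le_compl_iff_disjoint_right.2 (disjoint_iff.2 (ha j x x' e))))
  obtain ⟨e, e0, e1, e2, e3, e4⟩ := exists_tree W w2
  have w3 : ∀ s q l p l', q :: l = s ++ p :: l' → e (q :: l) ≠ ⊥ → q ≤ p := by
    intro s
    induction s with
    | nil => intro q l p l' h _; exact (List.cons.inj h).1.le
    | cons t s ih =>
      intro q l p l' h k
      obtain ⟨rfl, rfl⟩ := List.cons.inj h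
      rcases s with _ | ⟨t', s⟩
      · exact pr k ((e1 _).trans (inf_le_left.trans inf_le_right))
      · exact (pr k ((e1 _).trans (inf_le_left.trans inf_le_right))).trans
          (ih t' _ p l' rfl fun e0 => k (eq_bot_iff.2 ((e2 _ _).trans e0.le)))
  have w4 : ∀ b : B, b ≤ W [] → ∀ c, (∀ q, b ⊓ W [q] ≠ ⊥ → q = c) → b ≤ ⨆ l, e (c :: l) := by
    intro b h1 c h2
    refine (le_inf le_rfl (h1.trans (e0.ge.trans (e3 [])))).trans ?_
    rw [inf_iSup_eq]
    refine iSup_le fun q => ?_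
    by_cases h3 : b ⊓ W [q] = ⊥
    · exact ((inf_le_inf_left _ (e1 _)).trans h3.le).trans bot_le
    · exact h2 q h3 ▸ le_iSup_of_le [] inf_le_right
  refine ⟨fun q => ⨆ l, e (q :: l), w4 _ le_sup_left _ fun q h => ?_,
    w4 _ le_sup_right _ fun q h => ?_, fun q => iSup_le fun l => (e1 _).trans (w1 q l),
    fun q q' h => ?_, fun p j x => ?_⟩
  · refine pr h ?_
    show b0 ⊓ (_ ⊔ _) ≤ _
    rw [inf_sup_left]
    exact sup_le (inf_le_right.trans inf_le_right) (by simp [← inf_assoc])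
  · refine pr h ?_
    show _ ⊓ (_ ⊔ _) ≤ _
    rw [inf_sup_left]
    refine sup_le (le_trans ?_ bot_le) (inf_le_right.trans inf_le_right)
    exact (inf_le_inf inf_le_left inf_le_left).trans compl_inf_eq_bot.le
  · obtain ⟨l', h⟩ := ne_bot_iSup h
    rw [inf_comm] at h
    obtain ⟨l, h⟩ := ne_bot_iSup h
    rcases e4 _ _ h with ⟨s, k⟩ | ⟨s, k⟩
    · exact Or.inl (w3 s _ _ _ _ k.symm fun e0 => h (by simp [e0]))
    · exact Or.inr (w3 s _ _ _ _ k.symm fun e0 => h (by simp [e0]))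
  · rw [iSup_inf_eq]
    refine iSup_le fun l => ?_
    obtain ⟨n, rfl⟩ := hg j
    have h1 : l.length ≤ Nat.pair n l.length := Nat.right_le_pair _ _
    refine (inf_le_inf_right _ (tree_up e3 (p :: l) (Nat.pair n l.length - l.length + 1))).trans ?_
    rw [iSup₂_inf_eq]
    refine iSup₂_le fun s hs => ?_
    obtain ⟨q, s, rfl⟩ := List.exists_cons_of_length_eq_add_one hs
    obtain ⟨p', l', h2⟩ := List.exists_cons_of_ne_nil (l := s ++ p :: l) (by simp)
    have h3 : l'.length = Nat.pair n l.length := by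
      have := congrArg List.length h2
      simp at this hs
      omega
    rw [List.cons_append, h2]
    by_cases h4 : e (q :: p' :: l') ⊓ a (g n) x = ⊥
    · exact h4.le.trans bot_le
    have h5 : e (q :: p' :: l') ≠ ⊥ := fun e0 => h4 (by simp [e0])
    have h6 : p' ≤ p := w3 s _ _ _ _ h2.symm fun e0 => h5 (eq_bot_iff.2 ((e2 _ _).trans e0.le))
    have h7 : q ∈ D p' (g n) x := by
      refine pr h4 (Nm_le ((e1 _).trans (inf_le_right.trans ?_)))
      rw [h3, Nat.unpair_pair]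
      exact iInf_le _ x
    exact le_iSup₂_of_le q (hD _ _ _ _ h6 h7) (le_iSup_of_le
      ((w3 [q] _ _ _ _ rfl h5).trans h6) (le_iSup_of_le (p' :: l') inf_le_left))

end Pool.Agent.MP_fd3eaf_lc.Up
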